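import Pool.Agent.Lib.MP_12bd27_co.Step

set_option autoImplicit false

namespace Pool.Agent.Lib.MP_12bd27_co

theorem good_mem {B : Set (Set ℂ)} {v : ℂ} (h : Good B v) : v ∈ ⋃₀ B := by
  rcases h with ⟨h, _⟩ | ⟨h, _⟩
  · exact sub_of_mem h (verts_sub _ (edge_data (tri v 1) v 1 n1 (Or.inl rfl)).2.1)
  · exact sub_of_mem h (verts_sub _ (edge_data (hexL v 1) v 1 n1 (Or.inr rfl)).2.1)

theorem corner {B : Set (Set ℂ)} (hB : IsPatch B) (hc : Convex ℝ (⋃₀ B)) (v : ℂ)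
    (hg : Good B v) :
    ∃ w ∈ ⋃₀ B, w.im = v.im ∧ (∀ z ∈ ⋃₀ B, 0 ≤ gg w (om ^ 2) z) ∧
      (∀ z ∈ ⋃₀ B, 0 ≤ gg (w - om) om z) := by
  by_contra hcon
  push Not at hcon
  have all : ∀ k : ℕ, Good B (v + k) := by
    intro k
    induction k with
    | zero => simpa using hg
    | succ k ih =>
      have e : v + ((k + 1 : ℕ) : ℂ) - 1 = v + k := by push_cast; ring
      rw [← e] at ih
      rcases step hB hc _ ih with h | ⟨h1, h2, h3⟩
      · exact h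
      · exfalso
        obtain ⟨z, hz, hlt⟩ := hcon _ h1 (by simp) h2
        linarith [h3 z hz]
  have hbd : Bornology.IsBounded (⋃₀ B) := by
    rw [Set.sUnion_eq_biUnion, Bornology.isBounded_biUnion hB.finite]
    exact fun S hS => (tile_compact S (hB.tile S hS)).isBounded
  obtain ⟨R, hR⟩ := hbd.exists_norm_le
  obtain ⟨k, hk⟩ := exists_nat_gt (R + ‖v‖)
  have h1 := hR _ (good_mem (all k))
  have h2 : (k : ℝ) ≤ ‖v + k‖ + ‖v‖ := by
    have : (k : ℂ) = (v + k) - v := by ring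
    calc (k : ℝ) = ‖(k : ℂ)‖ := by simp
      _ = ‖(v + k) - v‖ := by rw [← this]
      _ ≤ _ := norm_sub_le _ _
  linarith

theorem no_convex {B : Set (Set ℂ)} (hB : IsPatch B) (hc : Convex ℝ (⋃₀ B)) (v₁ v₂ : ℂ)
    (h1 : Good B v₁) (h2 : Good B v₂) : v₁.im = v₂.im := by
  obtain ⟨a, ha, ha1, ha2, ha3⟩ := corner hB hc v₁ h1
  obtain ⟨b, hb, hb1, hb2, hb3⟩ := corner hB hc v₂ h2
  have e1 := ha2 b hb
  have e2 := ha3 b hb
  have e3 := hb2 a ha
  have e4 := hb3 a ha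
  rw [gg_eq, om2] at e1 e3
  rw [gg_eq] at e2 e4
  simp at e1 e2 e3 e4
  rw [← ha1, ← hb1]
  linarith

end Pool.Agent.Lib.MP_12bd27_co
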