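import Mathlib

set_option autoImplicit false

/-! Patches of regular unit triangles and hexagons in the plane `ℂ`. -/

namespace Pool.Agent.Lib.MP_12bd27_co

/-- The primitive sixth root of unity `e^{iπ/3}`. -/
noncomputable def om : ℂ := ⟨1 / 2, √3 / 2⟩

/-- `P` is a (closed) regular triangle of side length `1` in the plane `ℂ`. -/
def IsTriangle (P : Set ℂ) : Prop :=
  ∃ a u : ℂ, ‖u‖ = 1 ∧ P = convexHull ℝ {a, a + u, a + om * u}

/-- `P` is a (closed) regular hexagon of side length `1` in the plane `ℂ`: the convex hull of the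
six points `c + e^{iπk/3} u`. -/
def IsHexagon (P : Set ℂ) : Prop :=
  ∃ c u : ℂ, ‖u‖ = 1 ∧ P = convexHull ℝ {z | ∃ k : ℕ, z = c + om ^ k * u}

/-- A tile is a regular triangle or a regular hexagon of side length `1`. -/
def IsTile (P : Set ℂ) : Prop := IsTriangle P ∨ IsHexagon P

/-- The vertices (corners) of a tile are its extreme points. -/
def Verts (P : Set ℂ) : Set ℂ := P.extremePoints ℝ

/-- Two tiles are in edge-to-edge position if they are disjoint, or meet exactly in a common
vertex, or meet exactly in a common edge (an edge joins two vertices at distance `1`). -/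
def EdgeToEdge (P Q : Set ℂ) : Prop :=
  P ∩ Q = ∅ ∨ (∃ v, v ∈ Verts P ∧ v ∈ Verts Q ∧ P ∩ Q = {v}) ∨
  (∃ v w, v ∈ Verts P ∧ w ∈ Verts P ∧ v ∈ Verts Q ∧ w ∈ Verts Q ∧ dist v w = 1 ∧
    P ∩ Q = segment ℝ v w)

/-- The triangles of the family `B` having `v` as a vertex. -/
def TrianglesAt (B : Set (Set ℂ)) (v : ℂ) : Set (Set ℂ) :=
  {P | P ∈ B ∧ IsTriangle P ∧ v ∈ Verts P}

/-- The hexagons of the family `B` having `v` as a vertex. -/
def HexagonsAt (B : Set (Set ℂ)) (v : ℂ) : Set (Set ℂ) :=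
  {P | P ∈ B ∧ IsHexagon P ∧ v ∈ Verts P}

/-- A patch: a finite set of tiles, any two distinct ones in edge-to-edge position, whose union is
a topological disk, with at most two triangles and at most two hexagons at every vertex. -/
structure IsPatch (B : Set (Set ℂ)) : Prop where
  finite : B.Finite
  tile : ∀ P ∈ B, IsTile P
  edge : ∀ P ∈ B, ∀ Q ∈ B, P ≠ Q → EdgeToEdge P Q
  disk : Nonempty (↥(⋃₀ B) ≃ₜ ↥(Metric.closedBall (0 : ℂ) 1))
  adm : ∀ v : ℂ, (TrianglesAt B v).ncard ≤ 2 ∧ (HexagonsAt B v).ncard ≤ 2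

/-- An edge-to-edge tiling of the plane by tiles in which exactly two triangles and exactly two
hexagons meet at every vertex (that is, every vertex is of type `3².6²` or `3.6.3.6`). -/
structure IsTiling (T : Set (Set ℂ)) : Prop where
  tile : ∀ P ∈ T, IsTile P
  edge : ∀ P ∈ T, ∀ Q ∈ T, P ≠ Q → EdgeToEdge P Q
  cover : ⋃₀ T = Set.univ
  adm : ∀ P ∈ T, ∀ v ∈ Verts P, (TrianglesAt T v).ncard = 2 ∧ (HexagonsAt T v).ncard = 2

end Pool.Agent.Lib.MP_12bd27_co
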