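import Pool.Agent.Lib.MP_12bd27_co.Tiling
import Pool.Agent.Lib.MP_12bd27_co.Corner

set_option autoImplicit false

namespace Pool.Agent.Lib.MP_12bd27_co

theorem ne_of_verts {P Q : Set ℂ} (v : ℂ) (h1 : v ∈ Verts P) (h2 : v ∉ Verts Q) : P ≠ Q := by
  rintro rfl; exact h2 h1

theorem H_ne (m j : ℤ) : H m j ≠ H m (j + 1) := by
  refine ne_of_verts (ptZ (2 * m + 2) (2 * j)) (by rw [vertsH]; simp) ?_
  rw [vertsH]
  simp only [Set.mem_insert_iff, Set.mem_singleton_iff, ptZ_inj]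
  omega

theorem H_ne' (m j : ℤ) : H (m - 1) j ≠ H (m + 1) j := by
  refine ne_of_verts (ptZ (2 * (m - 1) - 2) (2 * j)) (by rw [vertsH]; simp) ?_
  rw [vertsH]
  simp only [Set.mem_insert_iff, Set.mem_singleton_iff, ptZ_inj]
  omega

theorem DU_ne (m j : ℤ) : D m j ≠ U m j := by
  refine ne_of_verts (ptZ (2 * m + 1) (2 * j + 1)) (by rw [vertsD]; simp) ?_
  rw [vertsU]
  simp only [Set.mem_insert_iff, Set.mem_singleton_iff, ptZ_inj]
  omega

theorem DU_ne' (m j : ℤ) : D m j ≠ U m (j + 1) := by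
  refine ne_of_verts (ptZ (2 * m) (2 * j)) (by rw [vertsD]; simp) ?_
  rw [vertsU]
  simp only [Set.mem_insert_iff, Set.mem_singleton_iff, ptZ_inj]
  omega

theorem TTH {m j : ℤ} (h : Even m) : H m j ∈ TT := ⟨m, j, Or.inl ⟨h, rfl⟩⟩
theorem TTD {m j : ℤ} (h : Odd m) : D m j ∈ TT := ⟨m, j, Or.inr (Or.inl ⟨h, rfl⟩)⟩
theorem TTU {m j : ℤ} (h : Odd m) : U m j ∈ TT := ⟨m, j, Or.inr (Or.inr ⟨h, rfl⟩)⟩

theorem adm_mid (M j : ℤ) (hM : Odd M) :
    (TrianglesAt TT (ptZ (2 * M) (2 * j))).ncard = 2 ∧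
      (HexagonsAt TT (ptZ (2 * M) (2 * j))).ncard = 2 := by
  have h1 : TrianglesAt TT (ptZ (2 * M) (2 * j)) = {D M j, U M j} := by
    ext Q
    constructor
    · rintro ⟨⟨m', j', hQ⟩, ht, hv⟩
      rcases hQ with ⟨hm, rfl⟩ | ⟨hm, rfl⟩ | ⟨hm, rfl⟩
      · exact absurd ht (fun h => not_both _ h (hexH _ _))
      · rw [vertsD] at hv
        simp only [Set.mem_insert_iff, Set.mem_singleton_iff, ptZ_inj] at hv
        have : m' = M ∧ j' = j := by omega
        rw [this.1, this.2]; simp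
      · rw [vertsU] at hv
        simp only [Set.mem_insert_iff, Set.mem_singleton_iff, ptZ_inj] at hv
        have : m' = M ∧ j' = j := by omega
        rw [this.1, this.2]; simp
    · intro hQ
      simp only [Set.mem_insert_iff, Set.mem_singleton_iff] at hQ
      rcases hQ with rfl | rfl
      · exact ⟨TTD hM, triD _ _, by rw [vertsD]; simp⟩
      · exact ⟨TTU hM, triU _ _, by rw [vertsU]; simp⟩
  have h2 : HexagonsAt TT (ptZ (2 * M) (2 * j)) = {H (M - 1) j, H (M + 1) j} := by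
    ext Q
    constructor
    · rintro ⟨⟨m', j', hQ⟩, ht, hv⟩
      rcases hQ with ⟨hm, rfl⟩ | ⟨hm, rfl⟩ | ⟨hm, rfl⟩
      · rw [vertsH] at hv
        simp only [Set.mem_insert_iff, Set.mem_singleton_iff, ptZ_inj] at hv
        have : (m' = M - 1 ∨ m' = M + 1) ∧ j' = j := by omega
        rcases this with ⟨h | h, h'⟩ <;> rw [h, h'] <;> simp
      · exact absurd ht (fun h => not_both _ (triD _ _) h)
      · exact absurd ht (fun h => not_both _ (triU _ _) h)
    · intro hQ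
      simp only [Set.mem_insert_iff, Set.mem_singleton_iff] at hQ
      have e1 : Even (M - 1) := by
        rw [Int.odd_iff] at hM; rw [Int.even_iff]; omega
      have e2 : Even (M + 1) := by
        rw [Int.odd_iff] at hM; rw [Int.even_iff]; omega
      rcases hQ with rfl | rfl
      · refine ⟨TTH e1, hexH _ _, ?_⟩
        rw [vertsH]
        simp only [Set.mem_insert_iff, Set.mem_singleton_iff, ptZ_inj, and_true]
        omega
      · refine ⟨TTH e2, hexH _ _, ?_⟩
        rw [vertsH]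
        simp only [Set.mem_insert_iff, Set.mem_singleton_iff, ptZ_inj, and_true]
        omega
  rw [h1, h2]
  exact ⟨Set.ncard_pair (DU_ne M j), Set.ncard_pair (H_ne' M j)⟩

theorem adm_line (m j : ℤ) :
    (TrianglesAt TT (ptZ (2 * m + 1) (2 * j + 1))).ncard = 2 ∧
      (HexagonsAt TT (ptZ (2 * m + 1) (2 * j + 1))).ncard = 2 := by
  -- `a` is the even, `b` the odd one of `m, m+1`
  obtain ⟨a, b, ha, hb, hab⟩ : ∃ a b : ℤ, Even a ∧ Odd b ∧
      ((a = m ∧ b = m + 1) ∨ (a = m + 1 ∧ b = m)) := by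
    rcases Int.even_or_odd m with h | h
    · exact ⟨m, m + 1, h, h.add_one, Or.inl ⟨rfl, rfl⟩⟩
    · exact ⟨m + 1, m, h.add_one, h, Or.inr ⟨rfl, rfl⟩⟩
  have ha' := ha
  have hb' := hb
  rw [Int.even_iff] at ha'
  rw [Int.odd_iff] at hb'
  have h1 : TrianglesAt TT (ptZ (2 * m + 1) (2 * j + 1)) = {D b j, U b (j + 1)} := by
    ext Q
    constructor
    · rintro ⟨⟨m', j', hQ⟩, ht, hv⟩
      rcases hQ with ⟨hm, rfl⟩ | ⟨hm, rfl⟩ | ⟨hm, rfl⟩
      · exact absurd ht (fun h => not_both _ h (hexH _ _))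
      · rw [vertsD] at hv
        simp only [Set.mem_insert_iff, Set.mem_singleton_iff, ptZ_inj] at hv
        rw [Int.odd_iff] at hm
        have : m' = b ∧ j' = j := by omega
        rw [this.1, this.2]; simp
      · rw [vertsU] at hv
        simp only [Set.mem_insert_iff, Set.mem_singleton_iff, ptZ_inj] at hv
        rw [Int.odd_iff] at hm
        have : m' = b ∧ j' = j + 1 := by omega
        rw [this.1, this.2]; simp
    · intro hQ
      simp only [Set.mem_insert_iff, Set.mem_singleton_iff] at hQ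
      rcases hQ with rfl | rfl
      · refine ⟨TTD hb, triD _ _, ?_⟩
        rw [vertsD]
        simp only [Set.mem_insert_iff, Set.mem_singleton_iff, ptZ_inj, and_true]
        omega
      · refine ⟨TTU hb, triU _ _, ?_⟩
        rw [vertsU]
        simp only [Set.mem_insert_iff, Set.mem_singleton_iff, ptZ_inj]
        omega
  have h2 : HexagonsAt TT (ptZ (2 * m + 1) (2 * j + 1)) = {H a j, H a (j + 1)} := by
    ext Q
    constructor
    · rintro ⟨⟨m', j', hQ⟩, ht, hv⟩
      rcases hQ with ⟨hm, rfl⟩ | ⟨hm, rfl⟩ | ⟨hm, rfl⟩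
      · rw [vertsH] at hv
        simp only [Set.mem_insert_iff, Set.mem_singleton_iff, ptZ_inj] at hv
        rw [Int.even_iff] at hm
        have : m' = a ∧ (j' = j ∨ j' = j + 1) := by omega
        rcases this with ⟨h', h | h⟩ <;> rw [h, h'] <;> simp
      · exact absurd ht (fun h => not_both _ (triD _ _) h)
      · exact absurd ht (fun h => not_both _ (triU _ _) h)
    · intro hQ
      simp only [Set.mem_insert_iff, Set.mem_singleton_iff] at hQ
      rcases hQ with rfl | rfl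
      · refine ⟨TTH ha, hexH _ _, ?_⟩
        rw [vertsH]
        simp only [Set.mem_insert_iff, Set.mem_singleton_iff, ptZ_inj, and_true]
        omega
      · refine ⟨TTH ha, hexH _ _, ?_⟩
        rw [vertsH]
        simp only [Set.mem_insert_iff, Set.mem_singleton_iff, ptZ_inj, and_true]
        omega
  rw [h1, h2]
  exact ⟨Set.ncard_pair (DU_ne' b j), Set.ncard_pair (H_ne a j)⟩

theorem tiling_TT : IsTiling TT where
  tile := by
    rintro P ⟨m, j, h | h | h⟩
    · rw [h.2]; exact Or.inr (hexH _ _)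
    · rw [h.2]; exact Or.inl (triD _ _)
    · rw [h.2]; exact Or.inl (triU _ _)
  edge := e2e_TT
  cover := cover_TT
  adm := by
    have L : ∀ X Y m j : ℤ, X = 2 * m + 1 → Y = 2 * j + 1 →
        (TrianglesAt TT (ptZ X Y)).ncard = 2 ∧ (HexagonsAt TT (ptZ X Y)).ncard = 2 := by
      rintro X Y m j rfl rfl; exact adm_line m j
    have M : ∀ X Y m j : ℤ, X = 2 * m → Y = 2 * j → Odd m →
        (TrianglesAt TT (ptZ X Y)).ncard = 2 ∧ (HexagonsAt TT (ptZ X Y)).ncard = 2 := by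
      rintro X Y m j rfl rfl h; exact adm_mid m j h
    rintro P ⟨m, j, ⟨hm, rfl⟩ | ⟨hm, rfl⟩ | ⟨hm, rfl⟩⟩ v hv
    · rw [vertsH] at hv
      simp only [Set.mem_insert_iff, Set.mem_singleton_iff] at hv
      rcases hv with rfl | rfl | rfl | rfl | rfl | rfl
      · exact M _ _ (m + 1) j (by ring) rfl hm.add_one
      · exact L _ _ m j rfl rfl
      · exact L _ _ (m - 1) j (by ring) rfl
      · exact M _ _ (m - 1) j (by ring) rfl (hm.sub_odd odd_one)
      · exact L _ _ (m - 1) (j - 1) (by ring) (by ring)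
      · exact L _ _ m (j - 1) rfl (by ring)
    · rw [vertsD] at hv
      simp only [Set.mem_insert_iff, Set.mem_singleton_iff] at hv
      rcases hv with rfl | rfl | rfl
      · exact M _ _ m j rfl rfl hm
      · exact L _ _ m j rfl rfl
      · exact L _ _ (m - 1) j (by ring) rfl
    · rw [vertsU] at hv
      simp only [Set.mem_insert_iff, Set.mem_singleton_iff] at hv
      rcases hv with rfl | rfl | rfl
      · exact M _ _ m j rfl rfl hm
      · exact L _ _ (m - 1) (j - 1) (by ring) (by ring)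
      · exact L _ _ m (j - 1) rfl (by ring)

/-- the patch of nine tiles -/
def AA : Set (Set ℂ) := {P | ∃ j : ℤ, -1 ≤ j ∧ j ≤ 1 ∧ (P = H 0 j ∨ P = D 1 j ∨ P = U 1 j)}

theorem AA_sub : AA ⊆ TT := by
  rintro P ⟨j, -, -, rfl | rfl | rfl⟩
  · exact TTH ⟨0, by norm_num⟩
  · exact TTD odd_one
  · exact TTU odd_one

theorem AA_finite : AA.Finite := by
  have h := Set.finite_Icc (-1 : ℤ) 1
  refine (((h.image (H 0)).union (h.image (D 1))).union (h.image (U 1))).subset ?_
  rintro P ⟨j, h1, h2, rfl | rfl | rfl⟩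
  · exact Or.inl (Or.inl ⟨j, ⟨h1, h2⟩, rfl⟩)
  · exact Or.inl (Or.inr ⟨j, ⟨h1, h2⟩, rfl⟩)
  · exact Or.inr ⟨j, ⟨h1, h2⟩, rfl⟩

/-- distance to the nearest even integer (for `|s| ≤ 3`) -/
noncomputable def dl (s : ℝ) : ℝ := abs (1 - abs (abs s - 1))

theorem dl_eq (s : ℝ) (j : ℤ) (h1 : -1 ≤ j) (h2 : j ≤ 1) (h3 : -1 ≤ s - 2 * j)
    (h4 : s - 2 * j ≤ 1) : dl s = |s - 2 * j| := by
  unfold dl
  have : j = -1 ∨ j = 0 ∨ j = 1 := by omega
  rcases this with rfl | rfl | rfl <;> push_cast at *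
  · have a1 : |s| = -s := abs_of_nonpos (by linarith)
    have a2 : |-s - 1| = -s - 1 := abs_of_nonneg (by linarith)
    rw [a1, a2]; congr 1; ring
  · have a1 : |s| ≤ 1 := abs_le.mpr ⟨by linarith, by linarith⟩
    have a2 : |(|s| - 1)| = 1 - |s| := by rw [abs_of_nonpos (by linarith)]; ring
    rw [a2, show 1 - (1 - |s|) = |s| by ring, abs_abs]
    congr 1; ring
  · have a1 : |s| = s := abs_of_nonneg (by linarith)
    have a2 : |s - 1| = s - 1 := abs_of_nonneg (by linarith)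
    rw [a1, a2, ← abs_neg]; congr 1; ring

theorem mem_AA (x s : ℝ) : pt x s ∈ ⋃₀ AA ↔
    (-3 ≤ s ∧ s ≤ 3) ∧ (-1 ≤ x - dl s / 2 ∧ x - dl s / 2 ≤ 1) := by
  constructor
  · rintro ⟨P, ⟨j, hj1, hj2, hP⟩, hz⟩
    have b1 : (-1 : ℝ) ≤ j := by exact_mod_cast hj1
    have b2 : (j : ℝ) ≤ 1 := by exact_mod_cast hj2
    rcases hP with rfl | rfl | rfl
    · rw [memH] at hz
      push_cast at hz
      obtain ⟨h1, h2, h3, h4, h5, h6⟩ := hz
      rw [dl_eq s j hj1 hj2 h1 h2]
      rcases le_total 0 (s - 2 * j) with h | h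
      · rw [abs_of_nonneg h]
        refine ⟨⟨by linarith, by linarith⟩, by linarith, by linarith⟩
      · rw [abs_of_nonpos h]
        refine ⟨⟨by linarith, by linarith⟩, by linarith, by linarith⟩
    · rw [memD] at hz
      push_cast at hz
      obtain ⟨h1, h2, h3, h4⟩ := hz
      rw [dl_eq s j hj1 hj2 (by linarith) h2, abs_of_nonneg h1]
      refine ⟨⟨by linarith, by linarith⟩, by linarith, by linarith⟩
    · rw [memU] at hz
      push_cast at hz
      obtain ⟨h1, h2, h3, h4⟩ := hz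
      rw [dl_eq s j hj1 hj2 (by linarith) (by linarith), abs_of_nonpos (by linarith)]
      refine ⟨⟨by linarith, by linarith⟩, by linarith, by linarith⟩
  · rintro ⟨⟨h1, h2⟩, h3, h4⟩
    obtain ⟨j, hj1, hj2, hj3, hj4⟩ : ∃ j : ℤ, -1 ≤ j ∧ j ≤ 1 ∧ -1 ≤ s - 2 * j ∧ s - 2 * j ≤ 1 := by
      rcases le_total s (-1) with h | h
      · exact ⟨-1, by norm_num, by norm_num, by push_cast; linarith, by push_cast; linarith⟩
      rcases le_total s 1 with h' | h'
      · exact ⟨0, by norm_num, by norm_num, by push_cast; linarith, by push_cast; linarith⟩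
      · exact ⟨1, by norm_num, by norm_num, by push_cast; linarith, by push_cast; linarith⟩
    rw [dl_eq s j hj1 hj2 hj3 hj4] at h3 h4
    rcases le_total 0 (s - 2 * j) with h | h
    · rw [abs_of_nonneg h] at h3 h4
      rcases le_total x (1 - (s - 2 * j) / 2) with hx | hx
      · refine ⟨H 0 j, ⟨j, hj1, hj2, Or.inl rfl⟩, ?_⟩
        rw [memH]; push_cast
        refine ⟨by linarith, by linarith, by linarith, by linarith, by linarith, by linarith⟩
      · refine ⟨D 1 j, ⟨j, hj1, hj2, Or.inr (Or.inl rfl)⟩, ?_⟩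
        rw [memD]; push_cast
        refine ⟨by linarith, by linarith, by linarith, by linarith⟩
    · rw [abs_of_nonpos h] at h3 h4
      rcases le_total x (1 + (s - 2 * j) / 2) with hx | hx
      · refine ⟨H 0 j, ⟨j, hj1, hj2, Or.inl rfl⟩, ?_⟩
        rw [memH]; push_cast
        refine ⟨by linarith, by linarith, by linarith, by linarith, by linarith, by linarith⟩
      · refine ⟨U 1 j, ⟨j, hj1, hj2, Or.inr (Or.inr rfl)⟩, ?_⟩
        rw [memU]; push_cast
        refine ⟨by linarith, by linarith, by linarith, by linarith⟩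

theorem dl_cont : Continuous dl := by
  unfold dl; fun_prop

/-- the shear homeomorphism -/
noncomputable def shear : ℂ ≃ₜ ℂ where
  toFun z := z - ((dl (2 / √3 * z.im) / 2 : ℝ) : ℂ)
  invFun z := z + ((dl (2 / √3 * z.im) / 2 : ℝ) : ℂ)
  left_inv z := by
    simp only [Complex.sub_im, Complex.ofReal_im, sub_zero]
    ring
  right_inv z := by
    simp only [Complex.add_im, Complex.ofReal_im, add_zero]
    ring
  continuous_toFun := by
    have := dl_cont
    fun_prop
  continuous_invFun := by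
    have := dl_cont
    fun_prop

/-- the rectangle -/
def KK : Set ℂ := {z | (-1 ≤ z.re ∧ z.re ≤ 1) ∧ (-(3 * (√3 / 2)) ≤ z.im ∧ z.im ≤ 3 * (√3 / 2))}

theorem KK_closed : IsClosed KK := by
  unfold KK
  apply IsClosed.inter <;> apply IsClosed.inter
  · exact isClosed_le continuous_const Complex.continuous_re
  · exact isClosed_le Complex.continuous_re continuous_const
  · exact isClosed_le continuous_const Complex.continuous_im
  · exact isClosed_le Complex.continuous_im continuous_const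

theorem KK_convex : Convex ℝ KK := by
  intro x hx y hy a b ha hb hab
  obtain ⟨⟨x1, x2⟩, x3, x4⟩ := hx
  obtain ⟨⟨y1, y2⟩, y3, y4⟩ := hy
  obtain rfl : b = 1 - a := by linarith
  refine ⟨⟨?_, ?_⟩, ?_, ?_⟩ <;>
    simp only [Complex.add_re, Complex.add_im, Complex.real_smul, Complex.mul_re, Complex.mul_im,
      Complex.ofReal_re, Complex.ofReal_im] <;> nlinarith

theorem KK_interior : (interior KK).Nonempty := by
  refine ⟨0, ?_⟩
  rw [mem_interior_iff_mem_nhds, Metric.mem_nhds_iff]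
  refine ⟨1, one_pos, ?_⟩
  intro z hz
  rw [Metric.mem_ball, dist_zero_right] at hz
  have h1 := abs_le.mp ((Complex.abs_re_le_norm z).trans hz.le)
  have h2 := abs_le.mp ((Complex.abs_im_le_norm z).trans hz.le)
  have h3 := s3pos
  have h4 := s3
  have h5 : 1 ≤ √3 := by
    by_contra h
    push Not at h
    nlinarith
  refine ⟨h1, ?_, ?_⟩ <;> linarith [h2.1, h2.2]

theorem KK_bounded : Bornology.IsBounded KK := by
  rw [isBounded_iff_forall_norm_le]
  refine ⟨1 + 3 * (√3 / 2), ?_⟩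
  rintro z ⟨⟨h1, h2⟩, h3, h4⟩
  calc ‖z‖ ≤ |z.re| + |z.im| := Complex.norm_le_abs_re_add_abs_im z
    _ ≤ 1 + 3 * (√3 / 2) := add_le_add (abs_le.mpr ⟨h1, h2⟩) (abs_le.mpr ⟨h3, h4⟩)

theorem shear_image : shear '' (⋃₀ AA) = KK := by
  have h3 := s3pos
  have key : ∀ x s, shear (pt x s) = pt (x - dl s / 2) s := by
    intro x s
    change pt x s - ((dl (2 / √3 * (pt x s).im) / 2 : ℝ) : ℂ) = _
    have : 2 / √3 * (pt x s).im = s := by rw [pt_im]; field_simp
    rw [this]
    apply Complex.ext <;> simp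
  have memK : ∀ x s, pt x s ∈ KK ↔ (-1 ≤ x ∧ x ≤ 1) ∧ (-3 ≤ s ∧ s ≤ 3) := by
    intro x s
    unfold KK
    simp only [Set.mem_ofPred_eq, pt_re, pt_im]
    have hp : 0 < √3 / 2 := by positivity
    have e1 : -(3 * (√3 / 2)) ≤ √3 / 2 * s ↔ -3 ≤ s := by
      rw [show -(3 * (√3 / 2)) = √3 / 2 * (-3) by ring, mul_le_mul_iff_right₀ hp]
    have e2 : √3 / 2 * s ≤ 3 * (√3 / 2) ↔ s ≤ 3 := by
      rw [show 3 * (√3 / 2) = √3 / 2 * 3 by ring, mul_le_mul_iff_right₀ hp]
    rw [e1, e2]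
  ext w
  constructor
  · rintro ⟨z, hz, rfl⟩
    obtain ⟨x, s, rfl⟩ := pt_surj z
    rw [mem_AA] at hz
    rw [key, memK]
    exact ⟨hz.2, hz.1⟩
  · intro hw
    obtain ⟨x, s, rfl⟩ := pt_surj w
    rw [memK] at hw
    refine ⟨pt (x + dl s / 2) s, ?_, ?_⟩
    · rw [mem_AA]
      refine ⟨hw.2, ?_⟩
      rw [show x + dl s / 2 - dl s / 2 = x by ring]
      exact hw.1
    · rw [key]; congr 1; ring

theorem AA_disk : Nonempty (↥(⋃₀ AA) ≃ₜ ↥(Metric.closedBall (0 : ℂ) 1)) := by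
  obtain ⟨h, -, hcl, -⟩ := exists_homeomorph_image_interior_closure_frontier_eq_unitBall
    KK_convex KK_interior KK_bounded
  rw [KK_closed.closure_eq] at hcl
  have e : (shear.trans h) '' (⋃₀ AA) = Metric.closedBall (0 : ℂ) 1 := by
    rw [← hcl, ← shear_image, Set.image_image]
    rfl
  exact ⟨((shear.trans h).image (⋃₀ AA)).trans (Homeomorph.setCongr e)⟩

theorem sub_count {A T : Set (Set ℂ)} (hAT : A ⊆ T) (hT : IsTiling T) (v : ℂ) :
    (TrianglesAt A v).ncard ≤ 2 ∧ (HexagonsAt A v).ncard ≤ 2 := by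
  by_cases hv : ∃ P ∈ T, v ∈ Verts P
  · obtain ⟨P, hP, hv⟩ := hv
    obtain ⟨h1, h2⟩ := hT.adm P hP v hv
    have f1 : (TrianglesAt T v).Finite := Set.finite_of_ncard_ne_zero (by rw [h1]; norm_num)
    have f2 : (HexagonsAt T v).Finite := Set.finite_of_ncard_ne_zero (by rw [h2]; norm_num)
    refine ⟨?_, ?_⟩
    · rw [← h1]; exact Set.ncard_le_ncard (fun Q hQ => ⟨hAT hQ.1, hQ.2⟩) f1
    · rw [← h2]; exact Set.ncard_le_ncard (fun Q hQ => ⟨hAT hQ.1, hQ.2⟩) f2
  · have e1 : TrianglesAt A v = ∅ := by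
      ext Q
      simp only [Set.mem_empty_iff_false, iff_false]
      rintro ⟨h1, h2, h3⟩
      exact hv ⟨Q, hAT h1, h3⟩
    have e2 : HexagonsAt A v = ∅ := by
      ext Q
      simp only [Set.mem_empty_iff_false, iff_false]
      rintro ⟨h1, h2, h3⟩
      exact hv ⟨Q, hAT h1, h3⟩
    rw [e1, e2]
    simp

theorem patch_AA : IsPatch AA where
  finite := AA_finite
  tile P hP := tiling_TT.tile P (AA_sub hP)
  edge P hP Q hQ h := tiling_TT.edge P (AA_sub hP) Q (AA_sub hQ) h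
  disk := AA_disk
  adm v := sub_count AA_sub tiling_TT v

theorem good_line (B : Set (Set ℂ)) (j : ℤ) (h1 : U 1 (j + 1) ∈ B) (h2 : D 1 j ∈ B) :
    Good B (ptZ 1 (2 * j + 1)) := by
  left
  have e1 : tri (ptZ 1 (2 * j + 1)) 1 = U 1 (j + 1) := by
    unfold U
    have h := tri_rot (pt ((1 : ℤ) : ℝ) (2 * ((j + 1 : ℤ) : ℝ))) (-om)
    rw [h]
    congr 1
    · apply Complex.ext <;> simp [ptZ] <;> ring
    · linear_combination om3
  have e2 : tri (ptZ 1 (2 * j + 1) + 1) (-1) = D 1 j := by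
    unfold D
    have h := tri_rot (pt ((1 : ℤ) : ℝ) (2 * ((j : ℤ) : ℝ))) om
    rw [h]
    congr 1
    · apply Complex.ext <;> simp [ptZ] <;> ring
    · linear_combination (-1 : ℂ) * om3
  rw [e1, e2]
  exact ⟨h1, h2⟩

theorem main : ∃ A : Set (Set ℂ), IsPatch A ∧ (∃ T, IsTiling T ∧ A ⊆ T) ∧
    ¬ ∃ B, IsPatch B ∧ Convex ℝ (⋃₀ B) ∧ A ⊆ B := by
  refine ⟨AA, patch_AA, ⟨TT, tiling_TT, AA_sub⟩, ?_⟩
  rintro ⟨B, hB, hc, hAB⟩
  have g1 : Good B (ptZ 1 (2 * 0 + 1)) := good_line B 0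
    (hAB ⟨1, by norm_num, by norm_num, Or.inr (Or.inr rfl)⟩)
    (hAB ⟨0, by norm_num, by norm_num, Or.inr (Or.inl rfl)⟩)
  have g2 : Good B (ptZ 1 (2 * (-1) + 1)) := good_line B (-1)
    (hAB ⟨0, by norm_num, by norm_num, Or.inr (Or.inr rfl)⟩)
    (hAB ⟨-1, by norm_num, by norm_num, Or.inr (Or.inl rfl)⟩)
  have := no_convex hB hc _ _ g1 g2
  have h3 := s3pos
  simp [ptZ] at this
  linarith

end Pool.Agent.Lib.MP_12bd27_co
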