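import Pool.Agent.Lib.MP_12bd27_co.Defs

set_option autoImplicit false

namespace Pool.Agent.Lib.MP_12bd27_co

theorem s3 : √3 * √3 = 3 := Real.mul_self_sqrt (by norm_num)
theorem s3pos : 0 < √3 := Real.sqrt_pos.mpr (by norm_num)

@[simp] theorem om_re : om.re = 1 / 2 := rfl
@[simp] theorem om_im : om.im = √3 / 2 := rfl

theorem om2 : om ^ 2 = om - 1 := by
  apply Complex.ext
  · simp [sq]; nlinarith [s3]
  · simp [sq]; ring

theorem om3 : om ^ 3 = -1 := by
  linear_combination (om + 1) * om2

theorem om4 : om ^ 4 = -om := by linear_combination om * om3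
theorem om5 : om ^ 5 = 1 - om := by linear_combination om ^ 2 * om3 - om2
theorem om6 : om ^ 6 = 1 := by linear_combination (om ^ 3 - 1) * om3

theorem norm_om : ‖om‖ = 1 := by
  rw [Complex.norm_def, Complex.normSq_apply]
  simp
  nlinarith [s3]

/-- the triangle to the left of the edge from `a` to `a + u` -/
def tri (a u : ℂ) : Set ℂ := convexHull ℝ {a, a + u, a + om * u}

/-- vertices of the hexagon with centre `c` -/
def hexV (c u : ℂ) : Set ℂ := {z | ∃ k : ℕ, z = c + om ^ k * u}

/-- the hexagon with centre `c` and a vertex at `c + u` -/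
def hex (c u : ℂ) : Set ℂ := convexHull ℝ (hexV c u)

/-- the hexagon to the left of the edge from `a` to `a + u` -/
def hexL (a u : ℂ) : Set ℂ := hex (a + om * u) u

theorem isTriangle_tri (a u : ℂ) (hu : ‖u‖ = 1) : IsTriangle (tri a u) := ⟨a, u, hu, rfl⟩
theorem isHexagon_hex (a u : ℂ) (hu : ‖u‖ = 1) : IsHexagon (hex a u) := ⟨a, u, hu, rfl⟩
theorem isHexagon_hexL (a u : ℂ) (hu : ‖u‖ = 1) : IsHexagon (hexL a u) := ⟨_, u, hu, rfl⟩

theorem tri_rot (a u : ℂ) : tri a u = tri (a + u) (om ^ 2 * u) := by
  unfold tri
  congr 1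
  have h1 : a + u + om ^ 2 * u = a + om * u := by rw [om2]; ring
  have h2 : a + u + om * (om ^ 2 * u) = a := by linear_combination u * om3
  rw [h1, h2]
  ext z
  simp only [Set.mem_insert_iff, Set.mem_singleton_iff]
  tauto

theorem hexV_rot (c u : ℂ) : hexV c u = hexV c (om * u) := by
  ext z
  constructor
  · rintro ⟨k, rfl⟩
    exact ⟨k + 5, by rw [pow_add]; linear_combination (-(om ^ k * u)) * om6⟩
  · rintro ⟨k, rfl⟩
    exact ⟨k + 1, by ring⟩

theorem hexV_rot' (c u : ℂ) (k : ℕ) : hexV c (om ^ k * u) = hexV c u := by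
  induction k with
  | zero => simp
  | succ k ih => rw [← ih, hexV_rot c (om ^ k * u)]; congr 1; ring

theorem hex_rot' (c u : ℂ) (k : ℕ) : hex c (om ^ k * u) = hex c u := by
  unfold hex; rw [hexV_rot']

theorem hexV_eq (c u : ℂ) : hexV c u =
    {c + u, c + om * u, c + om ^ 2 * u, c + om ^ 3 * u, c + om ^ 4 * u, c + om ^ 5 * u} := by
  ext z
  constructor
  · rintro ⟨k, rfl⟩
    have hk : om ^ k = om ^ (k % 6) := by
      conv_lhs => rw [← Nat.div_add_mod k 6, pow_add, pow_mul, om6, one_pow, one_mul]
    rw [hk]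
    have : k % 6 < 6 := Nat.mod_lt _ (by norm_num)
    interval_cases h : k % 6 <;> simp
  · intro h
    simp only [Set.mem_insert_iff, Set.mem_singleton_iff] at h
    rcases h with h | h | h | h | h | h
    · exact ⟨0, by simp [h]⟩
    · exact ⟨1, by simp [h]⟩
    · exact ⟨2, by simp [h]⟩
    · exact ⟨3, by simp [h]⟩
    · exact ⟨4, by simp [h]⟩
    · exact ⟨5, by simp [h]⟩

/-- signed distance to the line through `a` in the direction `u` (when `‖u‖ = 1`) -/
noncomputable def gg (a u z : ℂ) : ℝ := ((starRingEnd ℂ) u * (z - a)).im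

theorem gg_eq (a u z : ℂ) : gg a u z = u.re * (z.im - a.im) - u.im * (z.re - a.re) := by
  unfold gg; simp; ring

theorem gg_convex (a u : ℂ) : Convex ℝ {z | 0 ≤ gg a u z} := by
  intro x hx y hy s t hs ht hst
  simp only [Set.mem_ofPred_eq, gg_eq] at *
  simp only [Complex.add_re, Complex.add_im, Complex.real_smul, Complex.mul_re, Complex.mul_im,
    Complex.ofReal_re, Complex.ofReal_im]
  obtain rfl : t = 1 - s := by linarith
  nlinarith [mul_nonneg hs hx, mul_nonneg ht hy]

theorem normsq_of_norm (u : ℂ) (hu : ‖u‖ = 1) : u.re * u.re + u.im * u.im = 1 := by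
  have := Complex.sq_norm u
  rw [hu, Complex.normSq_apply] at this
  linarith

/-- value of `gg a u` at `a + z * u` -/
theorem gg_mul (a u z : ℂ) (hu : ‖u‖ = 1) : gg a u (a + z * u) = z.im := by
  have h := normsq_of_norm u hu
  rw [gg_eq]
  simp only [Complex.add_re, Complex.add_im, Complex.mul_re, Complex.mul_im]
  linear_combination z.im * h

theorem tri_half (a u : ℂ) (hu : ‖u‖ = 1) (z : ℂ) (hz : z ∈ tri a u) : 0 ≤ gg a u z := by
  refine convexHull_min ?_ (gg_convex a u) hz
  intro v hv
  simp only [Set.mem_insert_iff, Set.mem_singleton_iff] at hv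
  have := s3pos
  rcases hv with rfl | rfl | rfl
  · have := gg_mul v u 0 hu
    simp only [zero_mul, add_zero] at this
    rw [Set.mem_ofPred_eq, this]; simp
  · have := gg_mul a u 1 hu
    rw [one_mul] at this
    rw [Set.mem_ofPred_eq, this]; simp
  · rw [Set.mem_ofPred_eq, gg_mul a u om hu, om_im]; positivity

theorem hexL_V (a u : ℂ) : hexV (a + om * u) u =
    {a, a + u, a + (1 + om) * u, a + (2 * om) * u, a + (2 * om - 1) * u, a + (om - 1) * u} := by
  rw [hexV_eq]
  have h1 : a + om * u + u = a + (1 + om) * u := by ring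
  have h2 : a + om * u + om * u = a + (2 * om) * u := by ring
  have h3 : a + om * u + om ^ 2 * u = a + (2 * om - 1) * u := by rw [om2]; ring
  have h4 : a + om * u + om ^ 3 * u = a + (om - 1) * u := by rw [om3]; ring
  have h5 : a + om * u + om ^ 4 * u = a := by rw [om4]; ring
  have h6 : a + om * u + om ^ 5 * u = a + u := by rw [om5]; ring
  rw [h1, h2, h3, h4, h5, h6]
  ext z
  simp only [Set.mem_insert_iff, Set.mem_singleton_iff]
  tauto

theorem hexL_half (a u : ℂ) (hu : ‖u‖ = 1) (z : ℂ) (hz : z ∈ hexL a u) : 0 ≤ gg a u z := by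
  unfold hexL hex at hz
  rw [hexL_V] at hz
  refine convexHull_min ?_ (gg_convex a u) hz
  intro v hv
  simp only [Set.mem_insert_iff, Set.mem_singleton_iff] at hv
  have := s3pos
  rw [Set.mem_ofPred_eq]
  rcases hv with rfl | rfl | rfl | rfl | rfl | rfl
  · have := gg_mul v u 0 hu
    simp only [zero_mul, add_zero] at this
    rw [this]; simp
  · have := gg_mul a u 1 hu
    rw [one_mul] at this
    rw [this]; simp
  all_goals
    (rw [gg_mul _ u _ hu]; simp; try positivity)

theorem tri_verts_sub (a u : ℂ) : Verts (tri a u) ⊆ {a, a + u, a + om * u} :=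
  extremePoints_convexHull_subset

theorem hex_verts_sub (c u : ℂ) : Verts (hex c u) ⊆ hexV c u :=
  extremePoints_convexHull_subset

/-- a strict maximiser of a linear functional over the generators is extreme -/
theorem vert_of_functional (l : ℂ →L[ℝ] ℝ) (x : ℂ) (V : Set ℂ) (hV : V.Nonempty)
    (h : ∀ v ∈ V, l v < l x) : x ∈ Verts (convexHull ℝ (insert x V)) := by
  apply exposedPoints_subset_extremePoints
  refine ⟨subset_convexHull ℝ _ (Set.mem_insert _ _), l, ?_⟩
  intro y hy
  rw [convexHull_insert hV, mem_convexJoin] at hy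
  obtain ⟨x', hx', w, hw, hy⟩ := hy
  rw [Set.mem_singleton_iff] at hx'
  subst hx'
  have hw' : l w < l x' := by
    have : convexHull ℝ V ⊆ {z | l z < l x'} :=
      convexHull_min h (convex_halfSpace_lt l.isLinear _)
    exact this hw
  obtain ⟨s, t, hs, ht, hst, rfl⟩ := hy
  obtain rfl : s = 1 - t := by linarith
  simp only [map_add, map_smul, smul_eq_mul]
  constructor
  · nlinarith
  · intro hle
    have : t = 0 := by
      by_contra hne
      have : 0 < t := lt_of_le_of_ne ht (Ne.symm hne)
      nlinarith
    subst this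
    simp

/-- the functional `z ↦ Re (conj d * z)` -/
noncomputable def lin (d : ℂ) : ℂ →L[ℝ] ℝ :=
  d.re • Complex.reCLM + d.im • Complex.imCLM

theorem lin_apply (d z : ℂ) : lin d z = d.re * z.re + d.im * z.im := by
  simp [lin]

theorem tri_vert_zero (a u : ℂ) (hu : ‖u‖ = 1) : a ∈ Verts (tri a u) := by
  have h := normsq_of_norm u hu
  have h3 := s3
  refine vert_of_functional (lin (-((1 + om) * u))) a {a + u, a + om * u} (by simp) ?_
  intro v hv
  simp only [Set.mem_insert_iff, Set.mem_singleton_iff] at hv
  rcases hv with rfl | rfl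
  · rw [lin_apply, lin_apply]
    simp only [Complex.neg_re, Complex.neg_im, Complex.mul_re, Complex.mul_im, Complex.add_re,
      Complex.add_im, Complex.one_re, Complex.one_im, om_re, om_im]
    nlinarith
  · rw [lin_apply, lin_apply]
    simp only [Complex.neg_re, Complex.neg_im, Complex.mul_re, Complex.mul_im, Complex.add_re,
      Complex.add_im, Complex.one_re, Complex.one_im, om_re, om_im]
    nlinarith

theorem norm_om_mul (u : ℂ) (hu : ‖u‖ = 1) (k : ℕ) : ‖om ^ k * u‖ = 1 := by
  rw [norm_mul, norm_pow, norm_om, hu]; simp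

theorem tri_verts (a u : ℂ) (hu : ‖u‖ = 1) : Verts (tri a u) = {a, a + u, a + om * u} := by
  refine Set.Subset.antisymm (tri_verts_sub a u) ?_
  intro v hv
  simp only [Set.mem_insert_iff, Set.mem_singleton_iff] at hv
  rcases hv with rfl | rfl | rfl
  · exact tri_vert_zero _ u hu
  · rw [tri_rot]
    exact tri_vert_zero _ _ (norm_om_mul u hu 2)
  · rw [tri_rot, tri_rot]
    have h1 : a + u + om ^ 2 * u = a + om * u := by rw [om2]; ring
    rw [h1]
    have := norm_om_mul _ (norm_om_mul u hu 2) 2
    exact tri_vert_zero _ _ this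

theorem hex_vert_zero (c u : ℂ) (hu : ‖u‖ = 1) : c + u ∈ Verts (hex c u) := by
  have h := normsq_of_norm u hu
  have h3 := s3
  unfold hex
  rw [hexV_eq]
  refine vert_of_functional (lin u) (c + u) {c + om * u, c + om ^ 2 * u, c + om ^ 3 * u,
    c + om ^ 4 * u, c + om ^ 5 * u} (by simp) ?_
  intro v hv
  simp only [Set.mem_insert_iff, Set.mem_singleton_iff] at hv
  rw [om2, om3, om4, om5] at hv
  rcases hv with rfl | rfl | rfl | rfl | rfl <;>
  · rw [lin_apply, lin_apply]
    simp only [Complex.neg_re, Complex.neg_im, Complex.mul_re, Complex.mul_im, Complex.add_re,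
      Complex.add_im, Complex.one_re, Complex.one_im, om_re, om_im, Complex.sub_re,
      Complex.sub_im]
    nlinarith

theorem hex_verts (c u : ℂ) (hu : ‖u‖ = 1) : Verts (hex c u) = hexV c u := by
  refine Set.Subset.antisymm (hex_verts_sub c u) ?_
  rintro v ⟨k, rfl⟩
  rw [← hex_rot' c u k]
  exact hex_vert_zero c _ (norm_om_mul u hu k)

theorem hexL_verts (a u : ℂ) (hu : ‖u‖ = 1) : Verts (hexL a u) =
    {a, a + u, a + (1 + om) * u, a + (2 * om) * u, a + (2 * om - 1) * u, a + (om - 1) * u} := by
  unfold hexL
  rw [hex_verts _ _ hu, hexL_V]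

/-- a tile with an edge from `a` to `b` lies to the left or to the right of that edge -/
theorem tile_of_edge (S : Set ℂ) (hS : IsTile S) (a b : ℂ) (ha : a ∈ Verts S) (hb : b ∈ Verts S)
    (hab : dist a b = 1) :
    (S = tri a (b - a) ∨ S = hexL a (b - a)) ∨ (S = tri b (a - b) ∨ S = hexL b (a - b)) := by
  rcases hS with ⟨c, u, hu, rfl⟩ | ⟨c, u, hu, rfl⟩
  · change a ∈ Verts (tri c u) at ha
    change b ∈ Verts (tri c u) at hb
    change (tri c u = tri a (b - a) ∨ tri c u = hexL a (b - a)) ∨
      (tri c u = tri b (a - b) ∨ tri c u = hexL b (a - b))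
    rw [tri_verts c u hu] at ha hb
    simp only [Set.mem_insert_iff, Set.mem_singleton_iff] at ha hb
    have h0 : tri c u = tri c (c + u - c) := by congr 1; ring
    have h1 : tri c u = tri (c + u) (c + om * u - (c + u)) := by
      rw [tri_rot]; congr 1; rw [om2]; ring
    have h2 : tri c u = tri (c + om * u) (c - (c + om * u)) := by
      rw [tri_rot, tri_rot]
      have e1 : c + u + om ^ 2 * u = c + om * u := by rw [om2]; ring
      rw [e1]; congr 1; linear_combination om * u * om3
    rcases ha with rfl | rfl | rfl <;> rcases hb with rfl | rfl | rfl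
    · simp at hab
    · left; left; exact h0
    · right; left; exact h2
    · right; left; exact h0
    · simp at hab
    · left; left; exact h1
    · left; left; exact h2
    · right; left; exact h1
    · simp at hab
  · change a ∈ Verts (hex c u) at ha
    change b ∈ Verts (hex c u) at hb
    change (hex c u = tri a (b - a) ∨ hex c u = hexL a (b - a)) ∨
      (hex c u = tri b (a - b) ∨ hex c u = hexL b (a - b))
    rw [hex_verts c u hu] at ha hb
    obtain ⟨k, rfl⟩ := ha
    have hv := norm_om_mul u hu k
    rw [← hexV_rot' c u k, hexV_eq] at hb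
    rw [← hex_rot' c u k]
    generalize om ^ k * u = v at *
    have hn := normsq_of_norm v hv
    have h3 := s3
    have key : ∀ t : ℂ, dist (c + v) (c + t * v) = ‖1 - t‖ := by
      intro t
      rw [dist_eq_norm, show c + v - (c + t * v) = (1 - t) * v by ring, norm_mul, hv, mul_one]
    have nsq : ∀ t : ℂ, ‖1 - t‖ = 1 → (1 - t.re) * (1 - t.re) + t.im * t.im = 1 := by
      intro t ht
      have := Complex.sq_norm (1 - t)
      rw [ht, Complex.normSq_apply] at this
      simp only [Complex.sub_re, Complex.sub_im, Complex.one_re, Complex.one_im] at this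
      nlinarith
    simp only [Set.mem_insert_iff, Set.mem_singleton_iff] at hb
    rcases hb with rfl | rfl | rfl | rfl | rfl | rfl
    · simp at hab
    · left; right
      unfold hexL
      have e1 : c + om * v - (c + v) = om ^ 2 * v := by rw [om2]; ring
      have e2 : c + v + om * (c + om * v - (c + v)) = c := by
        rw [e1]; linear_combination v * om3
      rw [e2, e1, hex_rot']
    · rw [key] at hab
      have := nsq _ hab
      rw [om2] at this
      simp at this
      nlinarith
    · rw [key] at hab
      have := nsq _ hab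
      rw [om3] at this
      simp at this
      nlinarith
    · rw [key] at hab
      have := nsq _ hab
      rw [om4] at this
      simp at this
      nlinarith
    · right; right
      unfold hexL
      have e1 : c + v - (c + om ^ 5 * v) = om * v := by rw [om5]; ring
      have e2 : c + om ^ 5 * v + om * (c + v - (c + om ^ 5 * v)) = c := by
        rw [e1, om5]; linear_combination v * om2
      rw [e2, e1]
      have := hex_rot' c v 1
      rw [pow_one] at this
      rw [this]

end Pool.Agent.Lib.MP_12bd27_co
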