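import Pool.Agent.Lib.MP_12bd27_co.Geom

set_option autoImplicit false

namespace Pool.Agent.Lib.MP_12bd27_co

theorem tile_compact (S : Set ℂ) (hS : IsTile S) : IsCompact S := by
  rcases hS with ⟨c, u, hu, rfl⟩ | ⟨c, u, hu, rfl⟩
  · exact (Set.toFinite _).isCompact_convexHull ℝ
  · have : Set.Finite {z | ∃ k : ℕ, z = c + om ^ k * u} := by
      change (hexV c u).Finite
      rw [hexV_eq]; exact Set.toFinite _
    exact this.isCompact_convexHull ℝ

theorem tile_closed (S : Set ℂ) (hS : IsTile S) : IsClosed S := (tile_compact S hS).isClosed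

theorem gg_self (a u : ℂ) : gg a u a = 0 := by rw [gg_eq]; ring

/-- data of a tile with a distinguished edge from `a` to `a + u` -/
theorem edge_data (S : Set ℂ) (a u : ℂ) (hu : ‖u‖ = 1) (hSe : S = tri a u ∨ S = hexL a u) :
    (∀ z ∈ S, 0 ≤ gg a u z) ∧ a ∈ Verts S ∧ a + u ∈ Verts S ∧
      (∀ v ∈ Verts S, gg a u v = 0 → v = a ∨ v = a + u) ∧ Convex ℝ S := by
  have h3 := s3pos
  rcases hSe with rfl | rfl
  · refine ⟨tri_half a u hu, ?_, ?_, ?_, convex_convexHull ℝ _⟩
    · rw [tri_verts a u hu]; simp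
    · rw [tri_verts a u hu]; simp
    · rw [tri_verts a u hu]
      intro v hv hz
      simp only [Set.mem_insert_iff, Set.mem_singleton_iff] at hv
      rcases hv with rfl | rfl | rfl
      · left; rfl
      · right; rfl
      · rw [gg_mul a u _ hu] at hz
        simp at hz
  · refine ⟨hexL_half a u hu, ?_, ?_, ?_, convex_convexHull ℝ _⟩
    · rw [hexL_verts a u hu]; simp
    · rw [hexL_verts a u hu]; simp
    · rw [hexL_verts a u hu]
      intro v hv hz
      simp only [Set.mem_insert_iff, Set.mem_singleton_iff] at hv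
      rcases hv with rfl | rfl | rfl | rfl | rfl | rfl
      · left; rfl
      · right; rfl
      all_goals
        rw [gg_mul a u _ hu] at hz
        simp at hz

theorem sub_of_mem {B : Set (Set ℂ)} {S : Set ℂ} (hS : S ∈ B) : S ⊆ ⋃₀ B :=
  Set.subset_sUnion_of_mem hS

theorem verts_sub (S : Set ℂ) : Verts S ⊆ S := extremePoints_subset

theorem u_ne (u : ℂ) (hu : ‖u‖ = 1) : u ≠ 0 := by
  rintro rfl; simp at hu

/-- if the midpoint of an edge of a tile of a patch is interior to the union, then there is a tile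
on the other side of the edge -/
theorem neighbor {B : Set (Set ℂ)} (hB : IsPatch B) {S : Set ℂ} (hS : S ∈ B) (a u : ℂ)
    (hu : ‖u‖ = 1) (hSe : S = tri a u ∨ S = hexL a u)
    (hint : a + (1 / 2 : ℝ) • u ∈ interior (⋃₀ B)) :
    tri (a + u) (-u) ∈ B ∨ hexL (a + u) (-u) ∈ B := by
  obtain ⟨half, ha, hb, hvz, hconv⟩ := edge_data S a u hu hSe
  have hu0 := u_ne u hu
  set μ : ℂ := a + (1 / 2 : ℝ) • u with hμ
  have hμS : μ ∈ S := by
    have := hconv (verts_sub S ha) (verts_sub S hb) (by norm_num : (0:ℝ) ≤ 1/2)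
      (by norm_num : (0:ℝ) ≤ 1/2) (by norm_num)
    have e : (1/2 : ℝ) • a + (1/2 : ℝ) • (a + u) = μ := by
      rw [hμ, smul_add, ← add_assoc, ← add_smul]; norm_num
    rwa [e] at this
  have hgμ : gg a u μ = 0 := by
    have := gg_mul a u (1/2 : ℝ) hu
    rw [hμ, Complex.real_smul, this]; exact Complex.ofReal_im _
  have hμa : μ ≠ a := by
    intro h
    have : (1 / 2 : ℝ) • u = 0 := by
      have := congrArg (fun z => z - a) h
      simpa [hμ] using this
    rw [smul_eq_zero] at this
    rcases this with h | h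
    · norm_num at h
    · exact hu0 h
  have hμb : μ ≠ a + u := by
    intro h
    have : (1 / 2 : ℝ) • u = 0 := by
      have h' : a + (1/2 : ℝ) • u = a + u := h
      have h2 : (1/2 : ℝ) • u = u := add_left_cancel h'
      have h3 : (1/2 : ℝ) • u = u - (1/2 : ℝ) • u := by
        nth_rewrite 2 [← one_smul ℝ u]; rw [← sub_smul]; norm_num
      rw [h3, h2, sub_self]
    rw [smul_eq_zero] at this
    rcases this with h | h
    · norm_num at h
    · exact hu0 h
  -- the tiles not containing μ
  have hfin : {Q | Q ∈ B ∧ μ ∉ Q}.Finite := hB.finite.subset (fun Q hQ => hQ.1)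
  have hcl : IsClosed (⋃₀ {Q | Q ∈ B ∧ μ ∉ Q}) := by
    rw [Set.sUnion_eq_biUnion]
    exact hfin.isClosed_biUnion (fun Q hQ => tile_closed Q (hB.tile Q hQ.1))
  have hopen : IsOpen (interior (⋃₀ B) ∩ (⋃₀ {Q | Q ∈ B ∧ μ ∉ Q})ᶜ) :=
    isOpen_interior.inter hcl.isOpen_compl
  have hmem : μ ∈ interior (⋃₀ B) ∩ (⋃₀ {Q | Q ∈ B ∧ μ ∉ Q})ᶜ := by
    refine ⟨hint, ?_⟩
    rintro ⟨Q, hQ, hμQ⟩
    exact hQ.2 hμQ
  obtain ⟨ε, hε, hball⟩ := Metric.isOpen_iff.mp hopen μ hmem
  set z : ℂ := μ - ((ε / 2 : ℝ) : ℂ) * Complex.I * u with hz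
  have hzball : z ∈ Metric.ball μ ε := by
    rw [Metric.mem_ball, dist_eq_norm, hz]
    have : μ - ((ε / 2 : ℝ) : ℂ) * Complex.I * u - μ = -(((ε / 2 : ℝ) : ℂ) * Complex.I * u) := by
      ring
    rw [this, norm_neg, norm_mul, norm_mul, hu, Complex.norm_I, Complex.norm_real, Real.norm_eq_abs,
      abs_of_pos (by linarith)]
    linarith
  obtain ⟨hzi, hzc⟩ := hball hzball
  obtain ⟨Q, hQ, hzQ⟩ := interior_subset hzi
  have hμQ : μ ∈ Q := by
    by_contra h
    exact hzc ⟨Q, ⟨hQ, h⟩, hzQ⟩
  have hgz : gg a u z < 0 := by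
    have e : z = a + ((1/2 : ℝ) - ((ε / 2 : ℝ) : ℂ) * Complex.I) * u := by
      rw [hz, hμ, Complex.real_smul]; ring
    rw [e, gg_mul a u _ hu]
    simp
    linarith
  have hQS : S ≠ Q := by
    rintro rfl
    linarith [half z hzQ]
  have hend : a ∈ Verts Q ∧ a + u ∈ Verts Q := by
    rcases hB.edge S hS Q hQ hQS with h | ⟨v, hv, hv', h⟩ | ⟨v, w, hv, hw, hv', hw', hd, h⟩
    · exfalso
      have : μ ∈ S ∩ Q := ⟨hμS, hμQ⟩
      rw [h] at this
      exact this
    · exfalso
      have : μ ∈ S ∩ Q := ⟨hμS, hμQ⟩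
      rw [h, Set.mem_singleton_iff] at this
      subst this
      rcases hvz _ hv hgμ with h | h
      · exact hμa h
      · exact hμb h
    · have hm : μ ∈ S ∩ Q := ⟨hμS, hμQ⟩
      rw [h] at hm
      obtain ⟨s, t, hs, ht, hst, hm⟩ := hm
      have hgv := half v (verts_sub S hv)
      have hgw := half w (verts_sub S hw)
      have hlin : gg a u μ = s * gg a u v + t * gg a u w := by
        obtain rfl : s = 1 - t := by linarith
        rw [← hm]
        simp only [gg_eq, Complex.add_re, Complex.add_im, Complex.real_smul, Complex.mul_re,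
          Complex.mul_im, Complex.ofReal_re, Complex.ofReal_im]
        ring
      rw [hgμ] at hlin
      have hs0 : s ≠ 0 := by
        rintro rfl
        obtain rfl : t = 1 := by linarith
        have : μ = w := by rw [← hm]; simp
        rcases hvz _ hw (by rw [← this]; exact hgμ) with h | h
        · exact hμa (this.trans h)
        · exact hμb (this.trans h)
      have ht0 : t ≠ 0 := by
        rintro rfl
        obtain rfl : s = 1 := by linarith
        have : μ = v := by rw [← hm]; simp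
        rcases hvz _ hv (by rw [← this]; exact hgμ) with h | h
        · exact hμa (this.trans h)
        · exact hμb (this.trans h)
      have hs1 : 0 < s := lt_of_le_of_ne hs (Ne.symm hs0)
      have ht1 : 0 < t := lt_of_le_of_ne ht (Ne.symm ht0)
      have gv0 : gg a u v = 0 := by nlinarith [mul_nonneg hs hgv, mul_nonneg ht hgw]
      have gw0 : gg a u w = 0 := by nlinarith [mul_nonneg hs hgv, mul_nonneg ht hgw]
      rcases hvz v hv gv0 with rfl | rfl <;> rcases hvz w hw gw0 with rfl | rfl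
      · simp at hd
      · exact ⟨hv', hw'⟩
      · exact ⟨hw', hv'⟩
      · simp at hd
  have hd : dist a (a + u) = 1 := by rw [dist_eq_norm]; simpa using hu
  have e1 : a + u - a = u := by ring
  have e2 : a - (a + u) = -u := by ring
  rcases tile_of_edge Q (hB.tile Q hQ) a (a + u) hend.1 hend.2 hd with h | h
  · rw [e1] at h
    have := (edge_data Q a u hu h).1 z hzQ
    linarith
  · rw [e2] at h
    rcases h with h | h
    · left; rwa [← h]
    · right; rwa [← h]

/-- a convex set containing three points at equal distance and mutual angles 120° around `w` has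
`w` in its interior -/
theorem interior_of_three (U : Set ℂ) (hU : Convex ℝ U) (w d : ℂ) (hd0 : d ≠ 0)
    (h0 : w + d ∈ U) (h1 : w + om ^ 2 * d ∈ U) (h2 : w + om ^ 4 * d ∈ U) : w ∈ interior U := by
  have hdp : 0 < ‖d‖ := norm_pos_iff.mpr hd0
  rw [mem_interior_iff_mem_nhds, Metric.mem_nhds_iff]
  refine ⟨‖d‖ / 2, by positivity, ?_⟩
  intro z hz
  rw [Metric.mem_ball, dist_eq_norm] at hz
  set h : ℂ := z - w with hh
  set R : ℝ := ‖d‖ ^ 2 with hR
  have hRp : 0 < R := by positivity
  have hn : d.re * d.re + d.im * d.im = R := by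
    rw [hR, Complex.sq_norm, Complex.normSq_apply]
  obtain ⟨q, hq⟩ : ∃ q : ℝ, q = 2 / (3 * R) := ⟨_, rfl⟩
  have hqp : 0 < q := by rw [hq]; positivity
  have hqR : q * R = 2 / 3 := by rw [hq]; field_simp
  -- coefficients
  have bound : ∀ e : ℂ, ‖e‖ = ‖d‖ → 0 ≤ 1 / 3 + q * lin e h := by
    intro e he
    have h1 : |lin e h| ≤ R / 2 := by
      have : lin e h = ((starRingEnd ℂ) e * h).re := by rw [lin_apply]; simp
      rw [this]
      calc |((starRingEnd ℂ) e * h).re| ≤ ‖(starRingEnd ℂ) e * h‖ := Complex.abs_re_le_norm _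
        _ = ‖d‖ * ‖h‖ := by rw [norm_mul, RCLike.norm_conj, he]
        _ ≤ ‖d‖ * (‖d‖ / 2) := by gcongr
        _ = R / 2 := by rw [hR]; ring
    have := abs_le.mp h1
    have h2 : q * (-(R/2)) ≤ q * lin e h := by
      apply mul_le_mul_of_nonneg_left _ hqp.le
      linarith [this.1]
    linarith
  have n2 : ‖om ^ 2 * d‖ = ‖d‖ := by rw [norm_mul, norm_pow, norm_om]; simp
  have n4 : ‖om ^ 4 * d‖ = ‖d‖ := by rw [norm_mul, norm_pow, norm_om]; simp
  have b0 := bound d rfl
  have b1 := bound _ n2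
  have b2 := bound _ n4
  have h3 := s3
  have hsum : (1 / 3 + q * lin d h) + (1 / 3 + q * lin (om ^ 2 * d) h) +
      (1 / 3 + q * lin (om ^ 4 * d) h) = 1 := by
    rw [om2, om4, lin_apply, lin_apply, lin_apply]
    simp
    ring
  have hz' : (1 / 3 + q * lin d h) • (w + d) + (1 / 3 + q * lin (om ^ 2 * d) h) •
      (w + om ^ 2 * d) + (1 / 3 + q * lin (om ^ 4 * d) h) • (w + om ^ 4 * d) = z := by
    have hzw : z = w + h := by rw [hh]; ring
    rw [hzw, om2, om4]
    apply Complex.ext
    · simp [lin_apply]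
      linear_combination (3 / 2 * q * h.re) * hn +
        (q / 2 * (d.im * d.im * h.re - d.re * d.im * h.im)) * h3 + (3 / 2 * h.re) * hqR
    · simp [lin_apply]
      linear_combination (3 / 2 * q * h.im) * hn +
        (q / 2 * (d.re * d.re * h.im - d.re * d.im * h.re)) * h3 + (3 / 2 * h.im) * hqR
  rw [← hz']
  have := hU.sum_mem (t := Finset.univ) (w := ![(1 / 3 + q * lin d h),
    (1 / 3 + q * lin (om ^ 2 * d) h), (1 / 3 + q * lin (om ^ 4 * d) h)])
    (z := ![w + d, w + om ^ 2 * d, w + om ^ 4 * d])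
    (by intro i _; fin_cases i; exacts [b0, b1, b2])
    (by rw [Fin.sum_univ_three]; simpa using hsum)
    (by intro i _; fin_cases i; exacts [h0, h1, h2])
  rw [Fin.sum_univ_three] at this
  simpa using this

/-- if the midpoint of a segment is not interior to a convex set with points strictly to the left,
then the set lies to the left -/
theorem support (U : Set ℂ) (hU : Convex ℝ U) (a u : ℂ) (hu : ‖u‖ = 1) (ha : a ∈ U)
    (hb : a + u ∈ U) (hm : a + (1 / 2 : ℝ) • u ∉ interior U) (hne : (interior U).Nonempty)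
    (y : ℂ) (hy : y ∈ U) (hgy : 0 < gg a u y) : ∀ z ∈ U, 0 ≤ gg a u z := by
  obtain ⟨f, hf⟩ := geometric_hahn_banach_open_point hU.interior isOpen_interior hm
  have hn := normsq_of_norm u hu
  have hfle : ∀ z ∈ U, f z ≤ f (a + (1 / 2 : ℝ) • u) := by
    intro z hz
    have hcl : z ∈ closure (interior U) := by
      rw [hU.closure_interior_eq_closure_of_nonempty_interior hne]
      exact subset_closure hz
    have : closure (interior U) ⊆ {z | f z ≤ f (a + (1 / 2 : ℝ) • u)} :=
      closure_minimal (fun x hx => (hf x hx).le) (isClosed_le f.continuous continuous_const)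
    exact this hcl
  have e1 := hfle a ha
  have e2 := hfle _ hb
  rw [map_add, map_smul, smul_eq_mul] at e1
  rw [map_add, map_add, map_smul, smul_eq_mul] at e2
  have hfu : f u = 0 := by linarith
  have dec : ∀ z : ℂ, f z - f a = gg a u z * f (Complex.I * u) := by
    intro z
    have : z = a + (lin u (z - a)) • u + (gg a u z) • (Complex.I * u) := by
      apply Complex.ext
      · simp [lin_apply, gg_eq]
        linear_combination (-(z.re - a.re)) * hn
      · simp [lin_apply, gg_eq]
        linear_combination (-(z.im - a.im)) * hn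
    conv_lhs => rw [this]
    rw [map_add, map_add, map_smul, map_smul, hfu]
    simp
  have hμ : f (a + (1 / 2 : ℝ) • u) = f a := by
    rw [map_add, map_smul, hfu]; simp
  obtain ⟨y0, hy0⟩ := hne
  have h0 := hf y0 hy0
  rw [hμ] at h0
  have d0 := dec y0
  have d1 := dec y
  have l1 := hfle y hy
  rw [hμ] at l1
  have hneg : f (Complex.I * u) < 0 := by
    have h1 : f (Complex.I * u) ≤ 0 := by
      by_contra h
      push Not at h
      nlinarith [mul_pos hgy h]
    rcases lt_or_eq_of_le h1 with h | h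
    · exact h
    · rw [h] at d0; linarith
  intro z hz
  have lz := hfle z hz
  rw [hμ] at lz
  have dz := dec z
  by_contra h
  push Not at h
  nlinarith [mul_pos_of_neg_of_neg h hneg]

theorem ncard_three {X : Type} (T : Set X) (hT : T.Finite) (a b c : X) (ha : a ∈ T) (hb : b ∈ T)
    (hc : c ∈ T) (hab : a ≠ b) (hac : a ≠ c) (hbc : b ≠ c) : 3 ≤ T.ncard := by
  have h1 : ({a, b, c} : Set X) ⊆ T := by
    intro x hx
    simp only [Set.mem_insert_iff, Set.mem_singleton_iff] at hx
    rcases hx with rfl | rfl | rfl <;> assumption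
  have h2 : ({a, b, c} : Set X).ncard = 3 := by
    rw [Set.ncard_insert_of_notMem (by simp [hab, hac]) (Set.toFinite _),
      Set.ncard_pair hbc]
  rw [← h2]
  exact Set.ncard_le_ncard h1 hT

/-- two tiles of equal shape on the two sides of the edge from `v` to `v + 1` -/
def Good (B : Set (Set ℂ)) (v : ℂ) : Prop :=
  (tri v 1 ∈ B ∧ tri (v + 1) (-1) ∈ B) ∨ (hexL v 1 ∈ B ∧ hexL (v + 1) (-1) ∈ B)

theorem gg_one (a z : ℂ) : gg a 1 z = z.im - a.im := by rw [gg_eq]; simp
theorem gg_neg_one (a z : ℂ) : gg a (-1) z = a.im - z.im := by rw [gg_eq]; simp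

theorem mid_interior (U : Set ℂ) (hU : Convex ℝ U) (a u : ℂ)
    (h : (a ∈ interior U ∧ a + u ∈ U) ∨ (a ∈ U ∧ a + u ∈ interior U)) :
    a + (1 / 2 : ℝ) • u ∈ interior U := by
  have e : a + (1 / 2 : ℝ) • u = (1 / 2 : ℝ) • a + (1 / 2 : ℝ) • (a + u) := by
    rw [smul_add, ← add_assoc, ← add_smul]; norm_num
  rw [e]
  rcases h with ⟨h1, h2⟩ | ⟨h1, h2⟩
  · exact hU.combo_interior_self_mem_interior h1 h2 (by norm_num) (by norm_num) (by norm_num)
  · exact hU.combo_self_interior_mem_interior h1 h2 (by norm_num) (by norm_num) (by norm_num)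

theorem finite_triAt {B : Set (Set ℂ)} (hB : IsPatch B) (v : ℂ) : (TrianglesAt B v).Finite :=
  hB.finite.subset (fun _ h => h.1)
theorem finite_hexAt {B : Set (Set ℂ)} (hB : IsPatch B) (v : ℂ) : (HexagonsAt B v).Finite :=
  hB.finite.subset (fun _ h => h.1)

end Pool.Agent.Lib.MP_12bd27_co
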