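import Pool.Agent.Lib.MP_12bd27_co.Propagate

set_option autoImplicit false

namespace Pool.Agent.Lib.MP_12bd27_co

theorem n1 : ‖(1 : ℂ)‖ = 1 := by simp
theorem nm1 : ‖(-1 : ℂ)‖ = 1 := by simp
theorem nom (k : ℕ) : ‖om ^ k‖ = 1 := by rw [norm_pow, norm_om]; simp
theorem nnom (k : ℕ) : ‖-om ^ k‖ = 1 := by rw [norm_neg]; exact nom k

theorem hex_om (c : ℂ) (k : ℕ) : hex c (om ^ k) = hex c 1 := by
  have := hex_rot' c 1 k
  rwa [mul_one] at this

theorem hex_negom (c : ℂ) (k : ℕ) : hex c (-om ^ k) = hex c 1 := by
  have : -om ^ k = om ^ (k + 3) := by rw [pow_add, om3]; ring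
  rw [this, hex_om]

theorem hex_neg1 (c : ℂ) : hex c (-1) = hex c 1 := by
  have := hex_negom c 0
  rwa [pow_zero] at this

/-- the upper triangle, seen from `w = v + 1` -/
theorem triP (w : ℂ) : tri (w - 1) 1 = tri w (om ^ 2) := by
  rw [tri_rot]; congr 1 <;> ring

theorem triP' (w : ℂ) : tri (w - 1) 1 = tri (w + om ^ 2) (om ^ 4) := by
  rw [triP, tri_rot]; congr 1; ring

/-- the lower triangle, with the edge from `w - om` to `w` -/
theorem triQ (w : ℂ) : tri w (-1) = tri (w - om) om := by
  rw [tri_rot, tri_rot]
  have h1 : w + -1 + om ^ 2 * -1 = w - om := by rw [om2]; ring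
  have h2 : om ^ 2 * (om ^ 2 * -1) = om := by linear_combination (-om) * om3
  rw [h1, h2]

theorem hexLc (a u : ℂ) : hexL a u = hex (a + om * u) u := rfl

theorem step {B : Set (Set ℂ)} (hB : IsPatch B) (hc : Convex ℝ (⋃₀ B)) (w : ℂ)
    (hg : Good B (w - 1)) :
    Good B w ∨ (w ∈ ⋃₀ B ∧ (∀ z ∈ ⋃₀ B, 0 ≤ gg w (om ^ 2) z) ∧
      (∀ z ∈ ⋃₀ B, 0 ≤ gg (w - om) om z)) := by
  have h3 := s3pos
  have h33 := s3
  rcases hg with ⟨hP, hQ⟩ | ⟨hP, hQ⟩
  · -- triangles
    rw [sub_add_cancel] at hQ
    rw [triP] at hP
    have hQ' := hQ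
    rw [triQ] at hQ'
    have dP := edge_data (tri w (om ^ 2)) w (om ^ 2) (nom 2) (Or.inl rfl)
    have dQ := edge_data (tri (w - om) om) (w - om) om (norm_om) (Or.inl rfl)
    have hPH := tri_half (w - 1) 1 n1
    rw [triP] at hPH
    have hQH := tri_half w (-1) nm1
    have hwP : w ∈ Verts (tri w (om ^ 2)) := dP.2.1
    have hpP : w + om ^ 2 ∈ Verts (tri w (om ^ 2)) := dP.2.2.1
    have hqQ : w - om ∈ Verts (tri w (-1)) := by rw [triQ]; exact dQ.2.1
    have hwQ : w ∈ Verts (tri w (-1)) := by
      rw [triQ]
      have := dQ.2.2.1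
      rwa [sub_add_cancel] at this
    have hvP : w - 1 ∈ tri w (om ^ 2) := by
      rw [← triP]
      exact verts_sub _ (edge_data (tri (w - 1) 1) (w - 1) 1 n1 (Or.inl rfl)).2.1
    have hwU : w ∈ ⋃₀ B := sub_of_mem hP (verts_sub _ hwP)
    have hpU : w + om ^ 2 ∈ ⋃₀ B := sub_of_mem hP (verts_sub _ hpP)
    have hqU : w - om ∈ ⋃₀ B := sub_of_mem hQ (verts_sub _ hqQ)
    have hvU : w - 1 ∈ ⋃₀ B := sub_of_mem hP hvP
    have hPQ : tri w (om ^ 2) ≠ tri w (-1) := by
      intro h
      have h1 := verts_sub _ hpP
      rw [h] at h1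
      have := hQH _ h1
      rw [gg_neg_one, om2] at this
      simp at this
      linarith
    -- a third triangle at w is impossible
    have no_tri : ∀ S ∈ B, IsTriangle S → w ∈ Verts S → S = tri w (om ^ 2) ∨ S = tri w (-1) := by
      intro S hS hST hwS
      by_contra hne
      push Not at hne
      have := ncard_three (TrianglesAt B w) (finite_triAt hB w) S (tri w (om ^ 2)) (tri w (-1))
        ⟨hS, hST, hwS⟩ ⟨hP, isTriangle_tri _ _ (nom 2), hwP⟩ ⟨hQ, isTriangle_tri _ _ nm1, hwQ⟩
        hne.1 hne.2 hPQ
      have := (hB.adm w).1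
      omega
    -- neighbour across the edge from w to w + om^2
    have nbP : w + (1 / 2 : ℝ) • om ^ 2 ∈ interior (⋃₀ B) → hexL w 1 ∈ B := by
      intro hint
      rcases neighbor hB hP w (om ^ 2) (nom 2) (Or.inl rfl) hint with h | h
      · exfalso
        have dS := edge_data (tri (w + om ^ 2) (-om ^ 2)) (w + om ^ 2) (-om ^ 2) (nnom 2)
          (Or.inl rfl)
        have hwS : w ∈ Verts (tri (w + om ^ 2) (-om ^ 2)) := by
          have := dS.2.2.1
          rwa [show w + om ^ 2 + -om ^ 2 = w by ring] at this
        rcases no_tri _ h (isTriangle_tri _ _ (nnom 2)) hwS with e | e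
        · -- the point w - 1 lies strictly on the other side
          rw [← e] at hvP
          have := dS.1 _ hvP
          rw [gg_eq, om2] at this
          simp at this
          nlinarith
        · have : w - om ∈ tri w (-1) := verts_sub _ hqQ
          rw [← e] at this
          have := dS.1 _ this
          rw [gg_eq, om2] at this
          simp at this
          nlinarith
      · have e : hexL (w + om ^ 2) (-om ^ 2) = hexL w 1 := by
          rw [hexLc, hexLc, hex_negom]
          congr 1
          linear_combination om2 - om3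
        rwa [e] at h
    -- neighbour across the edge from w - om to w
    have nbQ : (w - om) + (1 / 2 : ℝ) • om ∈ interior (⋃₀ B) → hexL (w + 1) (-1) ∈ B := by
      intro hint
      rcases neighbor hB hQ' (w - om) om norm_om (Or.inl rfl) hint with h | h
      · exfalso
        rw [sub_add_cancel] at h
        have nmo : ‖-om‖ = 1 := by rw [norm_neg, norm_om]
        have dS := edge_data (tri w (-om)) w (-om) nmo (Or.inl rfl)
        rcases no_tri _ h (isTriangle_tri _ _ nmo) dS.2.1 with e | e
        · have h1 := verts_sub _ hpP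
          rw [← e] at h1
          have := dS.1 _ h1
          rw [gg_eq, om2] at this
          simp at this
          nlinarith
        · have h1 : w - 1 ∈ tri w (-1) := by
            have := (edge_data (tri w (-1)) w (-1) nm1 (Or.inl rfl)).2.2.1
            rw [← sub_eq_add_neg] at this
            exact verts_sub _ this
          rw [← e] at h1
          have := dS.1 _ h1
          rw [gg_eq] at this
          simp at this
          nlinarith
      · rw [sub_add_cancel] at h
        have e : hexL w (-om) = hexL (w + 1) (-1) := by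
          rw [hexLc, hexLc, hex_neg1]
          have := hex_negom (w + om * -om) 1
          rw [pow_one] at this
          rw [this]
          congr 1
          linear_combination (-1 : ℂ) * om2
        rwa [e] at h
    by_cases hint : w ∈ interior (⋃₀ B)
    · left; right
      refine ⟨nbP (mid_interior _ hc _ _ (Or.inl ⟨hint, hpU⟩)), nbQ ?_⟩
      refine mid_interior _ hc _ _ (Or.inr ⟨hqU, ?_⟩)
      rwa [sub_add_cancel]
    · right
      have three : w + 1 ∈ ⋃₀ B → False := by
        intro h1
        apply hint
        refine interior_of_three _ hc w 1 one_ne_zero h1 (by rwa [mul_one]) ?_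
        rw [mul_one, om4, ← sub_eq_add_neg]; exact hqU
      have mP : w + (1 / 2 : ℝ) • om ^ 2 ∉ interior (⋃₀ B) := by
        intro h
        apply three
        refine sub_of_mem (nbP h) (verts_sub _ ?_)
        exact (edge_data (hexL w 1) w 1 n1 (Or.inr rfl)).2.2.1
      have mQ : (w - om) + (1 / 2 : ℝ) • om ∉ interior (⋃₀ B) := by
        intro h
        apply three
        refine sub_of_mem (nbQ h) (verts_sub _ ?_)
        exact (edge_data (hexL (w + 1) (-1)) (w + 1) (-1) nm1 (Or.inr rfl)).2.1
      have hne : (interior (⋃₀ B)).Nonempty := by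
        -- centroid of the triangle w, w + om^2, w - 1
        refine ⟨w - 1 + (1 + om) / 3, interior_of_three _ hc _ (-(1 + om) / 3) ?_ ?_ ?_ ?_⟩
        · intro h
          have := congrArg Complex.im h
          simp at this
        · have : w - 1 + (1 + om) / 3 + -(1 + om) / 3 = w - 1 := by ring
          rw [this]; exact hvU
        · have : w - 1 + (1 + om) / 3 + om ^ 2 * (-(1 + om) / 3) = w := by
            linear_combination (-(1:ℂ)/3) * om3 + (-(1:ℂ)/3) * om2
          rw [this]; exact hwU
        · have : w - 1 + (1 + om) / 3 + om ^ 4 * (-(1 + om) / 3) = w + om ^ 2 := by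
            rw [om4, om2]; linear_combination ((1:ℂ)/3) * om2
          rw [this]; exact hpU
      refine ⟨hwU, support _ hc w (om ^ 2) (nom 2) hwU hpU mP hne (w - 1) hvU ?_,
        support _ hc (w - om) om norm_om hqU (by rwa [sub_add_cancel]) mQ hne (w - 1) hvU ?_⟩
      · rw [gg_eq, om2]
        simp
      · rw [gg_eq]
        simp
        nlinarith
  · -- hexagons
    left; left
    rw [sub_add_cancel] at hQ
    have eP : hexL (w - 1) 1 = hexL w om := by
      rw [hexLc, hexLc]
      have := hex_om (w + om * om) 1
      rw [pow_one] at this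
      rw [this]
      congr 1
      linear_combination (-1 : ℂ) * om2
    have eQ : hexL w (-1) = hexL (w + (1 - om)) (om ^ 2) := by
      rw [hexLc, hexLc, hex_neg1, hex_om]
      congr 1
      linear_combination (-1 : ℂ) * om3
    have hP' := hP
    have hQ' := hQ
    rw [eP] at hP'
    rw [eQ] at hQ'
    have dP := edge_data (hexL w om) w om norm_om (Or.inr rfl)
    have dQ := edge_data (hexL (w + (1 - om)) (om ^ 2)) (w + (1 - om)) (om ^ 2) (nom 2)
      (Or.inr rfl)
    have hPH := hexL_half (w - 1) 1 n1
    have hQH := hexL_half w (-1) nm1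
    have hwP : w ∈ Verts (hexL (w - 1) 1) := by rw [eP]; exact dP.2.1
    have hpP : w + om ∈ Verts (hexL (w - 1) 1) := by rw [eP]; exact dP.2.2.1
    have hqQ : w + (1 - om) ∈ Verts (hexL w (-1)) := by rw [eQ]; exact dQ.2.1
    have eqw : w + (1 - om) + om ^ 2 = w := by linear_combination om2
    have hwQ : w ∈ Verts (hexL w (-1)) := by
      rw [eQ]
      have := dQ.2.2.1
      rwa [eqw] at this
    have hvP : w - 1 ∈ Verts (hexL (w - 1) 1) :=
      (edge_data (hexL (w - 1) 1) (w - 1) 1 n1 (Or.inr rfl)).2.1
    have hwU : w ∈ ⋃₀ B := sub_of_mem hP (verts_sub _ hwP)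
    have hpU : w + om ∈ ⋃₀ B := sub_of_mem hP (verts_sub _ hpP)
    have hqU : w + (1 - om) ∈ ⋃₀ B := sub_of_mem hQ (verts_sub _ hqQ)
    have hvU : w - 1 ∈ ⋃₀ B := sub_of_mem hP (verts_sub _ hvP)
    have hint : w ∈ interior (⋃₀ B) := by
      refine interior_of_three _ hc w (-1) (by norm_num) ?_ ?_ ?_
      · rw [← sub_eq_add_neg]; exact hvU
      · have : w + om ^ 2 * -1 = w + (1 - om) := by rw [om2]; ring
        rw [this]; exact hqU
      · have : w + om ^ 4 * -1 = w + om := by rw [om4]; ring
        rw [this]; exact hpU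
    have hPQ : hexL (w - 1) 1 ≠ hexL w (-1) := by
      intro h
      have h1 := verts_sub _ hpP
      rw [h] at h1
      have := hQH _ h1
      rw [gg_neg_one] at this
      simp at this
      linarith
    -- the hexagon centred at w + 1 is impossible
    have no_hex : hex (w + 1) 1 ∈ B → False := by
      intro hS
      have hV : ∀ k : ℕ, w + 1 + om ^ k ∈ Verts (hex (w + 1) 1) := by
        intro k
        rw [hex_verts _ _ n1]
        exact ⟨k, by rw [mul_one]⟩
      have hwS : w ∈ Verts (hex (w + 1) 1) := by
        have := hV 3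
        rw [om3] at this
        rwa [show w + 1 + -1 = w by ring] at this
      have hup : w + 1 + om ∈ hex (w + 1) 1 := by
        have := hV 1
        rw [pow_one] at this
        exact verts_sub _ this
      have hdn : w + 1 + -om ∈ hex (w + 1) 1 := by
        have := hV 4
        rw [om4] at this
        exact verts_sub _ this
      have := ncard_three (HexagonsAt B w) (finite_hexAt hB w) (hex (w + 1) 1) (hexL (w - 1) 1)
        (hexL w (-1)) ⟨hS, isHexagon_hex _ _ n1, hwS⟩ ⟨hP, isHexagon_hexL _ _ n1, hwP⟩
        ⟨hQ, isHexagon_hexL _ _ nm1, hwQ⟩ ?_ ?_ hPQ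
      · have := (hB.adm w).2
        omega
      · intro e
        rw [e] at hdn
        have := hPH _ hdn
        rw [gg_one] at this
        simp at this
        linarith
      · intro e
        rw [e] at hup
        have := hQH _ hup
        rw [gg_neg_one] at this
        simp at this
        linarith
    constructor
    · rcases neighbor hB hP' w om norm_om (Or.inr rfl)
        (mid_interior _ hc _ _ (Or.inl ⟨hint, hpU⟩)) with h | h
      · have e : tri (w + om) (-om) = tri w 1 := by
          rw [tri_rot]
          congr 1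
          · ring
          · linear_combination (-1 : ℂ) * om3
        rwa [e] at h
      · exfalso
        apply no_hex
        have e : hexL (w + om) (-om) = hex (w + 1) 1 := by
          rw [hexLc]
          have := hex_negom (w + om + om * -om) 1
          rw [pow_one] at this
          rw [this]
          congr 1
          linear_combination (-1 : ℂ) * om2
        rwa [e] at h
    · have hmid : (w + (1 - om)) + (1 / 2 : ℝ) • om ^ 2 ∈ interior (⋃₀ B) := by
        refine mid_interior _ hc _ _ (Or.inr ⟨hqU, ?_⟩)
        rwa [eqw]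
      rcases neighbor hB hQ' (w + (1 - om)) (om ^ 2) (nom 2) (Or.inr rfl) hmid with h | h
      · have e : tri (w + (1 - om) + om ^ 2) (-om ^ 2) = tri (w + 1) (-1) := by
          rw [eqw, tri_rot (w + 1)]
          congr 1 <;> ring
        rwa [e] at h
      · exfalso
        apply no_hex
        have e : hexL (w + (1 - om) + om ^ 2) (-om ^ 2) = hex (w + 1) 1 := by
          rw [hexLc, hex_negom]
          congr 1
          linear_combination om2 - om3
        rwa [e] at h

end Pool.Agent.Lib.MP_12bd27_co
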