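import Pool.Agent.Lib.MP_12bd27_co.Step

set_option autoImplicit false

namespace Pool.Agent.Lib.MP_12bd27_co

/-- oblique coordinates: the point with abscissa `x` and ordinate `(√3/2) s` -/
noncomputable def pt (x s : ℝ) : ℂ := ⟨x, √3 / 2 * s⟩

@[simp] theorem pt_re (x s : ℝ) : (pt x s).re = x := rfl
@[simp] theorem pt_im (x s : ℝ) : (pt x s).im = √3 / 2 * s := rfl

theorem pt_surj (z : ℂ) : ∃ x s, z = pt x s := by
  refine ⟨z.re, 2 / √3 * z.im, ?_⟩
  have := s3pos
  apply Complex.ext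
  · rfl
  · rw [pt_im]; field_simp

theorem pt_inj (x s x' s' : ℝ) : pt x s = pt x' s' ↔ x = x' ∧ s = s' := by
  have := s3pos
  constructor
  · intro h
    have h1 := congrArg Complex.re h
    have h2 := congrArg Complex.im h
    rw [pt_re, pt_re] at h1
    rw [pt_im, pt_im] at h2
    refine ⟨h1, ?_⟩
    have : √3 / 2 ≠ 0 := by positivity
    exact mul_left_cancel₀ this h2
  · rintro ⟨rfl, rfl⟩; rfl

theorem pt_comb (a b x s x' s' : ℝ) :
    a • pt x s + b • pt x' s' = pt (a * x + b * x') (a * s + b * s') := by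
  apply Complex.ext
  · simp
  · simp; ring

theorem pt_add (x s x' s' : ℝ) : pt x s + pt x' s' = pt (x + x') (s + s') := by
  apply Complex.ext
  · simp
  · simp; ring

theorem om_pt : om = pt (1 / 2) 1 := by
  apply Complex.ext <;> simp

theorem om2_pt : om ^ 2 = pt (-1 / 2) 1 := by
  rw [om2]
  apply Complex.ext <;> simp
  norm_num

/-- hexagon with centre `(m, 2j)` -/
noncomputable def H (m j : ℤ) : Set ℂ := hex (pt m (2 * j)) 1
/-- downward triangle with apex `(m, 2j)` -/
noncomputable def D (m j : ℤ) : Set ℂ := tri (pt m (2 * j)) om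
/-- upward triangle with apex `(m, 2j)` -/
noncomputable def U (m j : ℤ) : Set ℂ := tri (pt m (2 * j)) (-om)

/-- half-integer lattice points -/
noncomputable def ptZ (X Y : ℤ) : ℂ := pt ((X : ℝ) / 2) Y

theorem ptZ_inj (X Y X' Y' : ℤ) : ptZ X Y = ptZ X' Y' ↔ X = X' ∧ Y = Y' := by
  unfold ptZ
  rw [pt_inj]
  constructor
  · rintro ⟨h1, h2⟩
    constructor
    · have : (X : ℝ) = X' := by linarith
      exact_mod_cast this
    · exact_mod_cast h2
  · rintro ⟨rfl, rfl⟩; exact ⟨rfl, rfl⟩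

theorem vertsH (m j : ℤ) : Verts (H m j) = {ptZ (2 * m + 2) (2 * j), ptZ (2 * m + 1) (2 * j + 1),
    ptZ (2 * m - 1) (2 * j + 1), ptZ (2 * m - 2) (2 * j), ptZ (2 * m - 1) (2 * j - 1),
    ptZ (2 * m + 1) (2 * j - 1)} := by
  unfold H
  rw [hex_verts _ _ n1, hexV_eq]
  have e0 : pt m (2 * j) + 1 = ptZ (2 * m + 2) (2 * j) := by
    apply Complex.ext <;> simp [ptZ]
    ring
  have e1 : pt m (2 * j) + om * 1 = ptZ (2 * m + 1) (2 * j + 1) := by
    apply Complex.ext <;> simp [ptZ] <;> ring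
  have e2 : pt m (2 * j) + om ^ 2 * 1 = ptZ (2 * m - 1) (2 * j + 1) := by
    rw [om2]; apply Complex.ext <;> simp [ptZ] <;> ring
  have e3 : pt m (2 * j) + om ^ 3 * 1 = ptZ (2 * m - 2) (2 * j) := by
    rw [om3]; apply Complex.ext <;> simp [ptZ]; ring
  have e4 : pt m (2 * j) + om ^ 4 * 1 = ptZ (2 * m - 1) (2 * j - 1) := by
    rw [om4]; apply Complex.ext <;> simp [ptZ] <;> ring
  have e5 : pt m (2 * j) + om ^ 5 * 1 = ptZ (2 * m + 1) (2 * j - 1) := by
    rw [om5]; apply Complex.ext <;> simp [ptZ] <;> ring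
  rw [e0, e1, e2, e3, e4, e5]

theorem vD (m j : ℤ) : pt m (2 * j) = ptZ (2 * m) (2 * j) ∧
    pt m (2 * j) + om = ptZ (2 * m + 1) (2 * j + 1) ∧
    pt m (2 * j) + om * om = ptZ (2 * m - 1) (2 * j + 1) ∧
    pt m (2 * j) + -om = ptZ (2 * m - 1) (2 * j - 1) ∧
    pt m (2 * j) + om * -om = ptZ (2 * m + 1) (2 * j - 1) := by
  have h3 := s3
  refine ⟨?_, ?_, ?_, ?_, ?_⟩
  · apply Complex.ext <;> simp [ptZ]
  · apply Complex.ext <;> simp [ptZ] <;> ring
  · rw [← sq, om2]; apply Complex.ext <;> simp [ptZ] <;> ring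
  · apply Complex.ext <;> simp [ptZ] <;> ring
  · rw [show om * -om = -om ^ 2 by ring, om2]; apply Complex.ext <;> simp [ptZ] <;> ring

theorem vertsD (m j : ℤ) : Verts (D m j) = {ptZ (2 * m) (2 * j), ptZ (2 * m + 1) (2 * j + 1),
    ptZ (2 * m - 1) (2 * j + 1)} := by
  unfold D
  rw [tri_verts _ _ norm_om]
  obtain ⟨h1, h2, h3, h4, h5⟩ := vD m j
  rw [h2, h3, h1]

theorem vertsU (m j : ℤ) : Verts (U m j) = {ptZ (2 * m) (2 * j), ptZ (2 * m - 1) (2 * j - 1),
    ptZ (2 * m + 1) (2 * j - 1)} := by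
  unfold U
  rw [tri_verts _ _ (by rw [norm_neg, norm_om])]
  obtain ⟨h1, h2, h3, h4, h5⟩ := vD m j
  rw [h4, h5, h1]

theorem halfplane_convex (p q r : ℝ) : Convex ℝ {z : ℂ | p * z.re + q * z.im ≤ r} := by
  intro x hx y hy s t hs ht hst
  simp only [Set.mem_ofPred_eq] at *
  simp only [Complex.add_re, Complex.add_im, Complex.real_smul, Complex.mul_re, Complex.mul_im,
    Complex.ofReal_re, Complex.ofReal_im]
  obtain rfl : t = 1 - s := by linarith
  nlinarith [mul_le_mul_of_nonneg_left hx hs, mul_le_mul_of_nonneg_left hy ht]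

/-- half planes in the coordinates `x, s` -/
theorem hp (p q r : ℝ) : Convex ℝ {z : ℂ | ∀ x s, z = pt x s → p * x + q * s ≤ r} := by
  have h3 := s3pos
  have e : {z : ℂ | ∀ x s, z = pt x s → p * x + q * s ≤ r} =
      {z : ℂ | p * z.re + (q * (2 / √3)) * z.im ≤ r} := by
    ext z
    obtain ⟨x, s, rfl⟩ := pt_surj z
    simp only [Set.mem_ofPred_eq, pt_re, pt_im]
    have e1 : q * (2 / √3) * (√3 / 2 * s) = q * s := by field_simp
    rw [e1]
    constructor
    · intro h; exact h x s rfl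
    · intro h x' s' h'
      rw [pt_inj] at h'
      obtain ⟨rfl, rfl⟩ := h'
      exact h
  rw [e]
  exact halfplane_convex _ _ _

theorem hull_le (V : Set ℂ) (p q r : ℝ) (hV : ∀ x s, pt x s ∈ V → p * x + q * s ≤ r) (x s : ℝ)
    (h : pt x s ∈ convexHull ℝ V) : p * x + q * s ≤ r := by
  have : convexHull ℝ V ⊆ {z : ℂ | ∀ x s, z = pt x s → p * x + q * s ≤ r} :=
    convexHull_min (fun z hz x s h => hV x s (h ▸ hz)) (hp p q r)
  exact this h x s rfl

theorem memD (m j : ℤ) (x s : ℝ) : pt x s ∈ D m j ↔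
    (0 ≤ s - 2 * j ∧ s - 2 * j ≤ 1 ∧ x - m ≤ (s - 2 * j) / 2 ∧ m - x ≤ (s - 2 * j) / 2) := by
  have hV : ({pt m (2 * j), pt m (2 * j) + om, pt m (2 * j) + om * om} : Set ℂ) =
      {pt m (2 * j), pt (m + 1 / 2) (2 * j + 1), pt (m - 1 / 2) (2 * j + 1)} := by
    have e1 : pt m (2 * j) + om = pt (m + 1 / 2) (2 * j + 1) := by rw [om_pt, pt_add]
    have e2 : pt m (2 * j) + om * om = pt (m - 1 / 2) (2 * j + 1) := by
      rw [← sq, om2_pt, pt_add]; congr 1; ring
    rw [e1, e2]
  constructor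
  · intro h
    unfold D tri at h
    rw [hV] at h
    have gen : ∀ p q r : ℝ, p * m + q * (2 * j) ≤ r → p * (m + 1 / 2) + q * (2 * j + 1) ≤ r →
        p * (m - 1 / 2) + q * (2 * j + 1) ≤ r → p * x + q * s ≤ r := by
      intro p q r h1 h2 h3
      refine hull_le _ p q r ?_ x s h
      intro x' s' hx
      simp only [Set.mem_insert_iff, Set.mem_singleton_iff, pt_inj] at hx
      rcases hx with ⟨rfl, rfl⟩ | ⟨rfl, rfl⟩ | ⟨rfl, rfl⟩ <;> assumption
    have g1 := gen 0 (-1) (-(2 * j)) (by linarith) (by linarith) (by linarith)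
    have g2 := gen 0 1 (2 * j + 1) (by linarith) (by linarith) (by linarith)
    have g3 := gen 1 (-1 / 2) (m - j) (by linarith) (by linarith) (by linarith)
    have g4 := gen (-1) (-1 / 2) (-m - j) (by linarith) (by linarith) (by linarith)
    refine ⟨by linarith, by linarith, by linarith, by linarith⟩
  · rintro ⟨h1, h2, h3, h4⟩
    unfold D tri
    rw [hV]
    set W : Set ℂ := {pt m (2 * j), pt (m + 1 / 2) (2 * j + 1), pt (m - 1 / 2) (2 * j + 1)}
    have hc : Convex ℝ (convexHull ℝ W) := convex_convexHull ℝ _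
    have a0 : pt m (2 * j) ∈ convexHull ℝ W := subset_convexHull ℝ _ (by simp [W])
    have a1 : pt (m + 1 / 2) (2 * j + 1) ∈ convexHull ℝ W := subset_convexHull ℝ _ (by simp [W])
    have a2 : pt (m - 1 / 2) (2 * j + 1) ∈ convexHull ℝ W := subset_convexHull ℝ _ (by simp [W])
    have := hc.sum_mem (t := Finset.univ) (w := ![1 - (s - 2 * j), (s - 2 * j) / 2 + (x - m),
      (s - 2 * j) / 2 - (x - m)])
      (z := ![pt m (2 * j), pt (m + 1 / 2) (2 * j + 1), pt (m - 1 / 2) (2 * j + 1)])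
      (by intro i _; fin_cases i
          · show (0:ℝ) ≤ 1 - (s - 2 * j); linarith
          · show (0:ℝ) ≤ (s - 2 * j) / 2 + (x - m); linarith
          · show (0:ℝ) ≤ (s - 2 * j) / 2 - (x - m); linarith)
      (by rw [Fin.sum_univ_three]; simp; ring)
      (by intro i _; fin_cases i; exacts [a0, a1, a2])
    rw [Fin.sum_univ_three] at this
    have e : (![1 - (s - 2 * j), (s - 2 * j) / 2 + (x - m), (s - 2 * j) / 2 - (x - m)] 0 : ℝ) •
        (![pt m (2 * j), pt (m + 1 / 2) (2 * j + 1), pt (m - 1 / 2) (2 * j + 1)] 0 : ℂ) +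
        (![1 - (s - 2 * j), (s - 2 * j) / 2 + (x - m), (s - 2 * j) / 2 - (x - m)] 1 : ℝ) •
        (![pt m (2 * j), pt (m + 1 / 2) (2 * j + 1), pt (m - 1 / 2) (2 * j + 1)] 1 : ℂ) +
        (![1 - (s - 2 * j), (s - 2 * j) / 2 + (x - m), (s - 2 * j) / 2 - (x - m)] 2 : ℝ) •
        (![pt m (2 * j), pt (m + 1 / 2) (2 * j + 1), pt (m - 1 / 2) (2 * j + 1)] 2 : ℂ) =
        pt x s := by
      show (1 - (s - 2 * j)) • pt m (2 * j) + ((s - 2 * j) / 2 + (x - m)) •
        pt (m + 1 / 2) (2 * j + 1) + ((s - 2 * j) / 2 - (x - m)) • pt (m - 1 / 2) (2 * j + 1) =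
        pt x s
      apply Complex.ext
      · simp; ring
      · simp; ring
    rwa [e] at this

theorem memU (m j : ℤ) (x s : ℝ) : pt x s ∈ U m j ↔
    (0 ≤ 2 * j - s ∧ 2 * j - s ≤ 1 ∧ x - m ≤ (2 * j - s) / 2 ∧ m - x ≤ (2 * j - s) / 2) := by
  have hV : ({pt m (2 * j), pt m (2 * j) + -om, pt m (2 * j) + om * -om} : Set ℂ) =
      {pt m (2 * j), pt (m - 1 / 2) (2 * j - 1), pt (m + 1 / 2) (2 * j - 1)} := by
    have e1 : pt m (2 * j) + -om = pt (m - 1 / 2) (2 * j - 1) := by
      rw [om_pt]; apply Complex.ext <;> simp <;> ring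
    have e2 : pt m (2 * j) + om * -om = pt (m + 1 / 2) (2 * j - 1) := by
      rw [show om * -om = -om ^ 2 by ring, om2_pt]; apply Complex.ext <;> simp <;> ring
    rw [e1, e2]
  constructor
  · intro h
    unfold U tri at h
    rw [hV] at h
    have gen : ∀ p q r : ℝ, p * m + q * (2 * j) ≤ r → p * (m - 1 / 2) + q * (2 * j - 1) ≤ r →
        p * (m + 1 / 2) + q * (2 * j - 1) ≤ r → p * x + q * s ≤ r := by
      intro p q r h1 h2 h3
      refine hull_le _ p q r ?_ x s h
      intro x' s' hx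
      simp only [Set.mem_insert_iff, Set.mem_singleton_iff, pt_inj] at hx
      rcases hx with ⟨rfl, rfl⟩ | ⟨rfl, rfl⟩ | ⟨rfl, rfl⟩ <;> assumption
    have g1 := gen 0 1 (2 * j) (by linarith) (by linarith) (by linarith)
    have g2 := gen 0 (-1) (-(2 * j - 1)) (by linarith) (by linarith) (by linarith)
    have g3 := gen 1 (1 / 2) (m + j) (by linarith) (by linarith) (by linarith)
    have g4 := gen (-1) (1 / 2) (-m + j) (by linarith) (by linarith) (by linarith)
    refine ⟨by linarith, by linarith, by linarith, by linarith⟩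
  · rintro ⟨h1, h2, h3, h4⟩
    unfold U tri
    rw [hV]
    set W : Set ℂ := {pt m (2 * j), pt (m - 1 / 2) (2 * j - 1), pt (m + 1 / 2) (2 * j - 1)}
    have hc : Convex ℝ (convexHull ℝ W) := convex_convexHull ℝ _
    have a0 : pt m (2 * j) ∈ convexHull ℝ W := subset_convexHull ℝ _ (by simp [W])
    have a1 : pt (m - 1 / 2) (2 * j - 1) ∈ convexHull ℝ W := subset_convexHull ℝ _ (by simp [W])
    have a2 : pt (m + 1 / 2) (2 * j - 1) ∈ convexHull ℝ W := subset_convexHull ℝ _ (by simp [W])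
    have := hc.sum_mem (t := Finset.univ) (w := ![1 - (2 * j - s), (2 * j - s) / 2 - (x - m),
      (2 * j - s) / 2 + (x - m)])
      (z := ![pt m (2 * j), pt (m - 1 / 2) (2 * j - 1), pt (m + 1 / 2) (2 * j - 1)])
      (by intro i _; fin_cases i
          · show (0:ℝ) ≤ 1 - (2 * j - s); linarith
          · show (0:ℝ) ≤ (2 * j - s) / 2 - (x - m); linarith
          · show (0:ℝ) ≤ (2 * j - s) / 2 + (x - m); linarith)
      (by rw [Fin.sum_univ_three]; simp; ring)
      (by intro i _; fin_cases i; exacts [a0, a1, a2])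
    rw [Fin.sum_univ_three] at this
    have e : (![1 - (2 * j - s), (2 * j - s) / 2 - (x - m), (2 * j - s) / 2 + (x - m)] 0 : ℝ) •
        (![pt m (2 * j), pt (m - 1 / 2) (2 * j - 1), pt (m + 1 / 2) (2 * j - 1)] 0 : ℂ) +
        (![1 - (2 * j - s), (2 * j - s) / 2 - (x - m), (2 * j - s) / 2 + (x - m)] 1 : ℝ) •
        (![pt m (2 * j), pt (m - 1 / 2) (2 * j - 1), pt (m + 1 / 2) (2 * j - 1)] 1 : ℂ) +
        (![1 - (2 * j - s), (2 * j - s) / 2 - (x - m), (2 * j - s) / 2 + (x - m)] 2 : ℝ) •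
        (![pt m (2 * j), pt (m - 1 / 2) (2 * j - 1), pt (m + 1 / 2) (2 * j - 1)] 2 : ℂ) =
        pt x s := by
      show (1 - (2 * j - s)) • pt m (2 * j) + ((2 * j - s) / 2 - (x - m)) •
        pt (m - 1 / 2) (2 * j - 1) + ((2 * j - s) / 2 + (x - m)) • pt (m + 1 / 2) (2 * j - 1) =
        pt x s
      apply Complex.ext
      · simp; ring
      · simp; ring
    rwa [e] at this

theorem memH (m j : ℤ) (x s : ℝ) : pt x s ∈ H m j ↔
    (-1 ≤ s - 2 * j ∧ s - 2 * j ≤ 1 ∧ (x - m) + (s - 2 * j) / 2 ≤ 1 ∧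
      (x - m) - (s - 2 * j) / 2 ≤ 1 ∧ (m - x) + (s - 2 * j) / 2 ≤ 1 ∧
      (m - x) - (s - 2 * j) / 2 ≤ 1) := by
  have hV : hexV (pt m (2 * j)) 1 =
      {pt (m + 1) (2 * j), pt (m + 1 / 2) (2 * j + 1), pt (m - 1 / 2) (2 * j + 1),
        pt (m - 1) (2 * j), pt (m - 1 / 2) (2 * j - 1), pt (m + 1 / 2) (2 * j - 1)} := by
    rw [hexV_eq]
    have e0 : pt m (2 * j) + 1 = pt (m + 1) (2 * j) := by apply Complex.ext <;> simp
    have e1 : pt m (2 * j) + om * 1 = pt (m + 1 / 2) (2 * j + 1) := by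
      apply Complex.ext <;> simp; ring
    have e2 : pt m (2 * j) + om ^ 2 * 1 = pt (m - 1 / 2) (2 * j + 1) := by
      rw [om2]; apply Complex.ext <;> simp <;> ring
    have e3 : pt m (2 * j) + om ^ 3 * 1 = pt (m - 1) (2 * j) := by
      rw [om3]; apply Complex.ext <;> simp; ring
    have e4 : pt m (2 * j) + om ^ 4 * 1 = pt (m - 1 / 2) (2 * j - 1) := by
      rw [om4]; apply Complex.ext <;> simp <;> ring
    have e5 : pt m (2 * j) + om ^ 5 * 1 = pt (m + 1 / 2) (2 * j - 1) := by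
      rw [om5]; apply Complex.ext <;> simp <;> ring
    rw [e0, e1, e2, e3, e4, e5]
  constructor
  · intro h
    unfold H hex at h
    rw [hV] at h
    have gen : ∀ p q r : ℝ, p * (m + 1) + q * (2 * j) ≤ r →
        p * (m + 1 / 2) + q * (2 * j + 1) ≤ r → p * (m - 1 / 2) + q * (2 * j + 1) ≤ r →
        p * (m - 1) + q * (2 * j) ≤ r → p * (m - 1 / 2) + q * (2 * j - 1) ≤ r →
        p * (m + 1 / 2) + q * (2 * j - 1) ≤ r → p * x + q * s ≤ r := by
      intro p q r h1 h2 h3 h4 h5 h6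
      refine hull_le _ p q r ?_ x s h
      intro x' s' hx
      simp only [Set.mem_insert_iff, Set.mem_singleton_iff, pt_inj] at hx
      rcases hx with ⟨rfl, rfl⟩ | ⟨rfl, rfl⟩ | ⟨rfl, rfl⟩ | ⟨rfl, rfl⟩ | ⟨rfl, rfl⟩ | ⟨rfl, rfl⟩ <;>
        assumption
    have g1 := gen 0 (-1) (-(2 * j - 1)) (by linarith) (by linarith) (by linarith) (by linarith)
      (by linarith) (by linarith)
    have g2 := gen 0 1 (2 * j + 1) (by linarith) (by linarith) (by linarith) (by linarith)
      (by linarith) (by linarith)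
    have g3 := gen 1 (1 / 2) (m + j + 1) (by linarith) (by linarith) (by linarith) (by linarith)
      (by linarith) (by linarith)
    have g4 := gen 1 (-1 / 2) (m - j + 1) (by linarith) (by linarith) (by linarith) (by linarith)
      (by linarith) (by linarith)
    have g5 := gen (-1) (1 / 2) (-m + j + 1) (by linarith) (by linarith) (by linarith)
      (by linarith) (by linarith) (by linarith)
    have g6 := gen (-1) (-1 / 2) (-m - j + 1) (by linarith) (by linarith) (by linarith)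
      (by linarith) (by linarith) (by linarith)
    refine ⟨by linarith, by linarith, by linarith, by linarith, by linarith, by linarith⟩
  · rintro ⟨h1, h2, h3, h4, h5, h6⟩
    unfold H hex
    rw [hV]
    set W : Set ℂ := {pt (m + 1) (2 * j), pt (m + 1 / 2) (2 * j + 1), pt (m - 1 / 2) (2 * j + 1),
        pt (m - 1) (2 * j), pt (m - 1 / 2) (2 * j - 1), pt (m + 1 / 2) (2 * j - 1)}
    have hc : Convex ℝ (convexHull ℝ W) := convex_convexHull ℝ _
    have a0 : pt (m + 1) (2 * j) ∈ convexHull ℝ W := subset_convexHull ℝ _ (by simp [W])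
    have a1 : pt (m + 1 / 2) (2 * j + 1) ∈ convexHull ℝ W := subset_convexHull ℝ _ (by simp [W])
    have a2 : pt (m - 1 / 2) (2 * j + 1) ∈ convexHull ℝ W := subset_convexHull ℝ _ (by simp [W])
    have a3 : pt (m - 1) (2 * j) ∈ convexHull ℝ W := subset_convexHull ℝ _ (by simp [W])
    have a4 : pt (m - 1 / 2) (2 * j - 1) ∈ convexHull ℝ W := subset_convexHull ℝ _ (by simp [W])
    have a5 : pt (m + 1 / 2) (2 * j - 1) ∈ convexHull ℝ W := subset_convexHull ℝ _ (by simp [W])
    -- the two boundary points at height s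
    have hLR : ∀ t : ℝ, 0 ≤ t → t ≤ 1 → x - m ≤ 1 - t / 2 → m - x ≤ 1 - t / 2 →
        pt (m - (1 - t / 2)) s ∈ convexHull ℝ W → pt (m + (1 - t / 2)) s ∈ convexHull ℝ W →
        pt x s ∈ convexHull ℝ W := by
      intro t ht0 ht1 k1 k2 kL kR
      have hpos : 0 < 2 - t := by linarith
      have := hc kL kR (a := (1 - t / 2 - (x - m)) / (2 - t)) (b := (1 - t / 2 + (x - m)) / (2 - t))
        (by apply div_nonneg <;> linarith) (by apply div_nonneg <;> linarith)
        (by field_simp; ring)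
      rw [pt_comb] at this
      have e : pt ((1 - t / 2 - (x - m)) / (2 - t) * (m - (1 - t / 2)) +
          (1 - t / 2 + (x - m)) / (2 - t) * (m + (1 - t / 2)))
          ((1 - t / 2 - (x - m)) / (2 - t) * s + (1 - t / 2 + (x - m)) / (2 - t) * s) = pt x s := by
        rw [pt_inj]
        constructor <;> field_simp <;> ring
      rwa [e] at this
    rcases le_total 0 (s - 2 * j) with hs | hs
    · refine hLR (s - 2 * j) hs h2 (by linarith) (by linarith) ?_ ?_
      · have := hc a3 a2 (a := 1 - (s - 2 * j)) (b := s - 2 * j) (by linarith) hs (by ring)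
        rw [pt_comb] at this
        have e : pt ((1 - (s - 2 * j)) * (m - 1) + (s - 2 * j) * (m - 1 / 2))
            ((1 - (s - 2 * j)) * (2 * j) + (s - 2 * j) * (2 * j + 1)) =
            pt (m - (1 - (s - 2 * j) / 2)) s := by
          rw [pt_inj]; constructor <;> ring
        rwa [e] at this
      · have := hc a0 a1 (a := 1 - (s - 2 * j)) (b := s - 2 * j) (by linarith) hs (by ring)
        rw [pt_comb] at this
        have e : pt ((1 - (s - 2 * j)) * (m + 1) + (s - 2 * j) * (m + 1 / 2))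
            ((1 - (s - 2 * j)) * (2 * j) + (s - 2 * j) * (2 * j + 1)) =
            pt (m + (1 - (s - 2 * j) / 2)) s := by
          rw [pt_inj]; constructor <;> ring
        rwa [e] at this
    · refine hLR (2 * j - s) (by linarith) (by linarith) (by linarith) (by linarith) ?_ ?_
      · have := hc a3 a4 (a := 1 - (2 * j - s)) (b := 2 * j - s) (by linarith) (by linarith)
          (by ring)
        rw [pt_comb] at this
        have e : pt ((1 - (2 * j - s)) * (m - 1) + (2 * j - s) * (m - 1 / 2))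
            ((1 - (2 * j - s)) * (2 * j) + (2 * j - s) * (2 * j - 1)) =
            pt (m - (1 - (2 * j - s) / 2)) s := by
          rw [pt_inj]; constructor <;> ring
        rwa [e] at this
      · have := hc a0 a5 (a := 1 - (2 * j - s)) (b := 2 * j - s) (by linarith) (by linarith)
          (by ring)
        rw [pt_comb] at this
        have e : pt ((1 - (2 * j - s)) * (m + 1) + (2 * j - s) * (m + 1 / 2))
            ((1 - (2 * j - s)) * (2 * j) + (2 * j - s) * (2 * j - 1)) =
            pt (m + (1 - (2 * j - s) / 2)) s := by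
          rw [pt_inj]; constructor <;> ring
        rwa [e] at this

end Pool.Agent.Lib.MP_12bd27_co
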