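import Pool.Agent.Lib.MP_12bd27_co.Tiles

set_option autoImplicit false

namespace Pool.Agent.Lib.MP_12bd27_co

theorem EdgeToEdge.symm {P Q : Set ℂ} (h : EdgeToEdge P Q) : EdgeToEdge Q P := by
  rcases h with h | ⟨v, h1, h2, h⟩ | ⟨v, w, h1, h2, h3, h4, hd, h⟩
  · left; rw [Set.inter_comm]; exact h
  · right; left; exact ⟨v, h2, h1, by rw [Set.inter_comm]; exact h⟩
  · right; right; exact ⟨v, w, h3, h4, h1, h2, hd, by rw [Set.inter_comm]; exact h⟩

theorem e2e_empty {P Q : Set ℂ} (h : ∀ x s, pt x s ∈ P → pt x s ∈ Q → False) :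
    EdgeToEdge P Q := by
  left
  ext z
  obtain ⟨x, s, rfl⟩ := pt_surj z
  simp only [Set.mem_inter_iff, Set.mem_empty_iff_false, iff_false]
  rintro ⟨h1, h2⟩
  exact h x s h1 h2

theorem e2e_vertex {P Q : Set ℂ} (x₀ s₀ : ℝ) (h1 : pt x₀ s₀ ∈ Verts P) (h2 : pt x₀ s₀ ∈ Verts Q)
    (h : ∀ x s, pt x s ∈ P → pt x s ∈ Q → x = x₀ ∧ s = s₀) : EdgeToEdge P Q := by
  right; left
  refine ⟨pt x₀ s₀, h1, h2, ?_⟩
  ext z
  obtain ⟨x, s, rfl⟩ := pt_surj z
  simp only [Set.mem_inter_iff, Set.mem_singleton_iff, pt_inj]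
  constructor
  · rintro ⟨h1, h2⟩
    exact h x s h1 h2
  · rintro ⟨rfl, rfl⟩
    exact ⟨verts_sub _ h1, verts_sub _ h2⟩

theorem e2e_edge {P Q : Set ℂ} (hP : Convex ℝ P) (hQ : Convex ℝ Q) (x₀ s₀ x₁ s₁ : ℝ)
    (h1 : pt x₀ s₀ ∈ Verts P) (h2 : pt x₀ s₀ ∈ Verts Q)
    (h3 : pt x₁ s₁ ∈ Verts P) (h4 : pt x₁ s₁ ∈ Verts Q)
    (hd : (x₁ - x₀) ^ 2 + 3 / 4 * (s₁ - s₀) ^ 2 = 1)
    (h : ∀ x s, pt x s ∈ P → pt x s ∈ Q → ∃ t : ℝ, 0 ≤ t ∧ t ≤ 1 ∧ x = (1 - t) * x₀ + t * x₁ ∧
      s = (1 - t) * s₀ + t * s₁) : EdgeToEdge P Q := by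
  right; right
  refine ⟨pt x₀ s₀, pt x₁ s₁, h1, h3, h2, h4, ?_, ?_⟩
  · rw [Complex.dist_eq, Complex.norm_def, Complex.normSq_apply]
    have : ((pt x₀ s₀ - pt x₁ s₁).re * (pt x₀ s₀ - pt x₁ s₁).re +
      (pt x₀ s₀ - pt x₁ s₁).im * (pt x₀ s₀ - pt x₁ s₁).im) = 1 := by
      simp only [Complex.sub_re, Complex.sub_im, pt_re, pt_im]
      have := s3
      linear_combination hd + (1 / 4 * (s₀ - s₁) ^ 2) * this
    rw [this, Real.sqrt_one]
  · ext z
    obtain ⟨x, s, rfl⟩ := pt_surj z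
    simp only [Set.mem_inter_iff]
    constructor
    · rintro ⟨h1, h2⟩
      obtain ⟨t, ht0, ht1, hx, hs⟩ := h x s h1 h2
      refine ⟨1 - t, t, by linarith, ht0, by ring, ?_⟩
      rw [pt_comb, ← hx, ← hs]
    · rintro ⟨a, b, ha, hb, hab, hz⟩
      rw [← hz]
      exact ⟨hP (verts_sub _ h1) (verts_sub _ h3) ha hb hab,
        hQ (verts_sub _ h2) (verts_sub _ h4) ha hb hab⟩

theorem convH (m j : ℤ) : Convex ℝ (H m j) := convex_convexHull ℝ _
theorem convD (m j : ℤ) : Convex ℝ (D m j) := convex_convexHull ℝ _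
theorem convU (m j : ℤ) : Convex ℝ (U m j) := convex_convexHull ℝ _

theorem ptZ_eq (X Y : ℤ) (x s : ℝ) (hx : x = (X : ℝ) / 2) (hs : s = (Y : ℝ)) :
    pt x s = ptZ X Y := by
  rw [hx, hs]; rfl

/-- tiles whose upper side is the edge centred at `(m, 2j+1)` -/
structure TopTile (P : Set ℂ) (m j : ℤ) : Prop where
  conv : Convex ℝ P
  le : ∀ x s, pt x s ∈ P → s ≤ 2 * j + 1
  face : ∀ x s, pt x s ∈ P → s = 2 * j + 1 → x - m ≤ 1 / 2 ∧ m - x ≤ 1 / 2
  left : pt (m - 1 / 2) (2 * j + 1) ∈ Verts P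
  right : pt (m + 1 / 2) (2 * j + 1) ∈ Verts P

/-- tiles whose lower side is the edge centred at `(m, 2j+1)` -/
structure BotTile (P : Set ℂ) (m j : ℤ) : Prop where
  conv : Convex ℝ P
  le : ∀ x s, pt x s ∈ P → 2 * j + 1 ≤ s
  face : ∀ x s, pt x s ∈ P → s = 2 * j + 1 → x - m ≤ 1 / 2 ∧ m - x ≤ 1 / 2
  left : pt (m - 1 / 2) (2 * j + 1) ∈ Verts P
  right : pt (m + 1 / 2) (2 * j + 1) ∈ Verts P

theorem topH (m j : ℤ) : TopTile (H m j) m j where
  conv := convH m j
  le x s h := by rw [memH] at h; linarith [h.2.1]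
  face x s h hs := by
    rw [memH] at h
    obtain ⟨h1, h2, h3, h4, h5, h6⟩ := h
    constructor <;> linarith
  left := by
    rw [vertsH, ptZ_eq (2 * m - 1) (2 * j + 1) _ _ (by push_cast; ring) (by push_cast; ring)]
    simp
  right := by
    rw [vertsH, ptZ_eq (2 * m + 1) (2 * j + 1) _ _ (by push_cast; ring) (by push_cast; ring)]
    simp

theorem topD (m j : ℤ) : TopTile (D m j) m j where
  conv := convD m j
  le x s h := by rw [memD] at h; linarith [h.2.1]
  face x s h hs := by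
    rw [memD] at h
    obtain ⟨h1, h2, h3, h4⟩ := h
    constructor <;> linarith
  left := by
    rw [vertsD, ptZ_eq (2 * m - 1) (2 * j + 1) _ _ (by push_cast; ring) (by push_cast; ring)]
    simp
  right := by
    rw [vertsD, ptZ_eq (2 * m + 1) (2 * j + 1) _ _ (by push_cast; ring) (by push_cast; ring)]
    simp

theorem botH (m j : ℤ) : BotTile (H m (j + 1)) m j where
  conv := convH m _
  le x s h := by rw [memH] at h; push_cast at h; linarith [h.1]
  face x s h hs := by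
    rw [memH] at h
    push_cast at h
    obtain ⟨h1, h2, h3, h4, h5, h6⟩ := h
    constructor <;> linarith
  left := by
    rw [vertsH, ptZ_eq (2 * m - 1) (2 * (j + 1) - 1) _ _ (by push_cast; ring) (by push_cast; ring)]
    simp
  right := by
    rw [vertsH, ptZ_eq (2 * m + 1) (2 * (j + 1) - 1) _ _ (by push_cast; ring) (by push_cast; ring)]
    simp

theorem botU (m j : ℤ) : BotTile (U m (j + 1)) m j where
  conv := convU m _
  le x s h := by rw [memU] at h; push_cast at h; linarith [h.2.1]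
  face x s h hs := by
    rw [memU] at h
    push_cast at h
    obtain ⟨h1, h2, h3, h4⟩ := h
    constructor <;> linarith
  left := by
    rw [vertsU, ptZ_eq (2 * m - 1) (2 * (j + 1) - 1) _ _ (by push_cast; ring) (by push_cast; ring)]
    simp
  right := by
    rw [vertsU, ptZ_eq (2 * m + 1) (2 * (j + 1) - 1) _ _ (by push_cast; ring) (by push_cast; ring)]
    simp

theorem int_gap (m m' : ℤ) (h : m < m') : (m : ℝ) + 1 ≤ m' := by exact_mod_cast h

theorem top_bot {P Q : Set ℂ} (m m' j : ℤ) (hP : TopTile P m j) (hQ : BotTile Q m' j) :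
    EdgeToEdge P Q := by
  have hs : ∀ x s, pt x s ∈ P → pt x s ∈ Q → s = 2 * j + 1 := fun x s h1 h2 =>
    le_antisymm (hP.le x s h1) (hQ.le x s h2)
  rcases lt_trichotomy m m' with h | h | h
  · rcases eq_or_lt_of_le (Int.add_one_le_iff.mpr h) with h' | h'
    · -- m' = m + 1
      have e : (m' : ℝ) = m + 1 := by rw [← h']; push_cast; ring
      refine e2e_vertex (m + 1 / 2) (2 * j + 1) hP.right ?_ ?_
      · have := hQ.left
        rwa [show (m' : ℝ) - 1 / 2 = m + 1 / 2 by rw [e]; ring] at this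
      · intro x s h1 h2
        have hss := hs x s h1 h2
        have a := hP.face x s h1 hss
        have b := hQ.face x s h2 hss
        exact ⟨by linarith [a.1, b.2], hss⟩
    · have e := int_gap _ _ h'
      push_cast at e
      refine e2e_empty fun x s h1 h2 => ?_
      have hss := hs x s h1 h2
      have a := hP.face x s h1 hss
      have b := hQ.face x s h2 hss
      linarith [a.1, b.2]
  · subst h
    refine e2e_edge hP.conv hQ.conv (m - 1 / 2) (2 * j + 1) (m + 1 / 2) (2 * j + 1) hP.left hQ.left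
      hP.right hQ.right (by ring) ?_
    intro x s h1 h2
    have hss := hs x s h1 h2
    have a := hP.face x s h1 hss
    exact ⟨x - m + 1 / 2, by linarith [a.2], by linarith [a.1], by ring, by rw [hss]; ring⟩
  · rcases eq_or_lt_of_le (Int.add_one_le_iff.mpr h) with h' | h'
    · have e : (m : ℝ) = m' + 1 := by rw [← h']; push_cast; ring
      refine e2e_vertex (m - 1 / 2) (2 * j + 1) hP.left ?_ ?_
      · have := hQ.right
        rwa [show (m' : ℝ) + 1 / 2 = m - 1 / 2 by rw [e]; ring] at this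
      · intro x s h1 h2
        have hss := hs x s h1 h2
        have a := hP.face x s h1 hss
        have b := hQ.face x s h2 hss
        exact ⟨by linarith [a.2, b.1], hss⟩
    · have e := int_gap _ _ h'
      push_cast at e
      refine e2e_empty fun x s h1 h2 => ?_
      have hss := hs x s h1 h2
      have a := hP.face x s h1 hss
      have b := hQ.face x s h2 hss
      linarith [a.2, b.1]

/-- the tiles of the tiling: hexagons at even, triangles at odd abscissas -/
def IsT (P : Set ℂ) (m j : ℤ) : Prop :=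
  (Even m ∧ P = H m j) ∨ (Odd m ∧ P = D m j) ∨ (Odd m ∧ P = U m j)

/-- the tiling -/
def TT : Set (Set ℂ) := {P | ∃ m j : ℤ, IsT P m j}

/-- height bounds -/
theorem IsT.bd {P : Set ℂ} {m j : ℤ} (h : IsT P m j) (x s : ℝ) (hx : pt x s ∈ P) :
    2 * j - 1 ≤ s ∧ s ≤ 2 * j + 1 ∧ x ≤ m + 1 ∧ (m : ℝ) - 1 ≤ x := by
  rcases h with ⟨-, rfl⟩ | ⟨-, rfl⟩ | ⟨-, rfl⟩
  · rw [memH] at hx
    obtain ⟨h1, h2, h3, h4, h5, h6⟩ := hx
    refine ⟨by linarith, by linarith, by linarith, by linarith⟩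
  · rw [memD] at hx
    obtain ⟨h1, h2, h3, h4⟩ := hx
    refine ⟨by linarith, by linarith, by linarith, by linarith⟩
  · rw [memU] at hx
    obtain ⟨h1, h2, h3, h4⟩ := hx
    refine ⟨by linarith, by linarith, by linarith, by linarith⟩

theorem e2e_rows {P Q : Set ℂ} {m j m' j' : ℤ} (hP : IsT P m j) (hQ : IsT Q m' j') (hj : j < j') :
    EdgeToEdge P Q := by
  rcases eq_or_lt_of_le (Int.add_one_le_iff.mpr hj) with h | h
  · subst h
    rcases hP with ⟨-, rfl⟩ | ⟨-, rfl⟩ | ⟨-, rfl⟩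
    · rcases hQ with ⟨-, rfl⟩ | ⟨-, rfl⟩ | ⟨-, rfl⟩
      · exact top_bot _ _ _ (topH m j) (botH m' j)
      · refine e2e_empty fun x s h1 h2 => ?_
        rw [memH] at h1
        rw [memD] at h2
        push_cast at h2
        linarith [h1.2.1, h2.1]
      · exact top_bot _ _ _ (topH m j) (botU m' j)
    · rcases hQ with ⟨-, rfl⟩ | ⟨-, rfl⟩ | ⟨-, rfl⟩
      · exact top_bot _ _ _ (topD m j) (botH m' j)
      · refine e2e_empty fun x s h1 h2 => ?_
        rw [memD] at h1 h2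
        push_cast at h2
        linarith [h1.2.1, h2.1]
      · exact top_bot _ _ _ (topD m j) (botU m' j)
    · refine e2e_empty fun x s h1 h2 => ?_
      rw [memU] at h1
      have := (IsT.bd hQ x s h2).1
      push_cast at this
      linarith [h1.1]
  · refine e2e_empty fun x s h1 h2 => ?_
    have a := (hP.bd x s h1).2.1
    have b := (hQ.bd x s h2).1
    have e := int_gap _ _ h
    push_cast at e
    linarith

theorem slHD (m j : ℤ) : EdgeToEdge (H m j) (D (m + 1) j) := by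
  refine e2e_edge (convH _ _) (convD _ _) (m + 1) (2 * j) (m + 1 / 2) (2 * j + 1) ?_ ?_ ?_ ?_
    (by ring) ?_
  · rw [vertsH, ptZ_eq (2 * m + 2) (2 * j) _ _ (by push_cast; ring) (by push_cast; ring)]; simp
  · rw [vertsD, ptZ_eq (2 * (m + 1)) (2 * j) _ _ (by push_cast; ring) (by push_cast; ring)]; simp
  · rw [vertsH, ptZ_eq (2 * m + 1) (2 * j + 1) _ _ (by push_cast; ring) (by push_cast; ring)]; simp
  · rw [vertsD, ptZ_eq (2 * (m + 1) - 1) (2 * j + 1) _ _ (by push_cast; ring) (by push_cast; ring)]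
    simp
  · intro x s h1 h2
    rw [memH] at h1
    rw [memD] at h2
    push_cast at h2
    obtain ⟨a1, a2, a3, a4, a5, a6⟩ := h1
    obtain ⟨b1, b2, b3, b4⟩ := h2
    exact ⟨s - 2 * j, b1, b2, by linarith, by ring⟩

theorem slHU (m j : ℤ) : EdgeToEdge (H m j) (U (m + 1) j) := by
  refine e2e_edge (convH _ _) (convU _ _) (m + 1) (2 * j) (m + 1 / 2) (2 * j - 1) ?_ ?_ ?_ ?_
    (by ring) ?_
  · rw [vertsH, ptZ_eq (2 * m + 2) (2 * j) _ _ (by push_cast; ring) (by push_cast; ring)]; simp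
  · rw [vertsU, ptZ_eq (2 * (m + 1)) (2 * j) _ _ (by push_cast; ring) (by push_cast; ring)]; simp
  · rw [vertsH, ptZ_eq (2 * m + 1) (2 * j - 1) _ _ (by push_cast; ring) (by push_cast; ring)]; simp
  · rw [vertsU, ptZ_eq (2 * (m + 1) - 1) (2 * j - 1) _ _ (by push_cast; ring) (by push_cast; ring)]
    simp
  · intro x s h1 h2
    rw [memH] at h1
    rw [memU] at h2
    push_cast at h2
    obtain ⟨a1, a2, a3, a4, a5, a6⟩ := h1
    obtain ⟨b1, b2, b3, b4⟩ := h2
    exact ⟨2 * j - s, b1, b2, by linarith, by ring⟩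

theorem slDH (m j : ℤ) : EdgeToEdge (D m j) (H (m + 1) j) := by
  refine e2e_edge (convD _ _) (convH _ _) m (2 * j) (m + 1 / 2) (2 * j + 1) ?_ ?_ ?_ ?_
    (by ring) ?_
  · rw [vertsD, ptZ_eq (2 * m) (2 * j) _ _ (by push_cast; ring) (by push_cast; ring)]; simp
  · rw [vertsH, ptZ_eq (2 * (m + 1) - 2) (2 * j) _ _ (by push_cast; ring) (by push_cast; ring)]
    simp
  · rw [vertsD, ptZ_eq (2 * m + 1) (2 * j + 1) _ _ (by push_cast; ring) (by push_cast; ring)]; simp
  · rw [vertsH, ptZ_eq (2 * (m + 1) - 1) (2 * j + 1) _ _ (by push_cast; ring) (by push_cast; ring)]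
    simp
  · intro x s h1 h2
    rw [memD] at h1
    rw [memH] at h2
    push_cast at h2
    obtain ⟨a1, a2, a3, a4, a5, a6⟩ := h2
    obtain ⟨b1, b2, b3, b4⟩ := h1
    exact ⟨s - 2 * j, b1, b2, by linarith, by ring⟩

theorem slUH (m j : ℤ) : EdgeToEdge (U m j) (H (m + 1) j) := by
  refine e2e_edge (convU _ _) (convH _ _) m (2 * j) (m + 1 / 2) (2 * j - 1) ?_ ?_ ?_ ?_
    (by ring) ?_
  · rw [vertsU, ptZ_eq (2 * m) (2 * j) _ _ (by push_cast; ring) (by push_cast; ring)]; simp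
  · rw [vertsH, ptZ_eq (2 * (m + 1) - 2) (2 * j) _ _ (by push_cast; ring) (by push_cast; ring)]
    simp
  · rw [vertsU, ptZ_eq (2 * m + 1) (2 * j - 1) _ _ (by push_cast; ring) (by push_cast; ring)]; simp
  · rw [vertsH, ptZ_eq (2 * (m + 1) - 1) (2 * j - 1) _ _ (by push_cast; ring) (by push_cast; ring)]
    simp
  · intro x s h1 h2
    rw [memU] at h1
    rw [memH] at h2
    push_cast at h2
    obtain ⟨a1, a2, a3, a4, a5, a6⟩ := h2
    obtain ⟨b1, b2, b3, b4⟩ := h1
    exact ⟨2 * j - s, b1, b2, by linarith, by ring⟩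

theorem slHH (m j : ℤ) : EdgeToEdge (H m j) (H (m + 2) j) := by
  refine e2e_vertex (m + 1) (2 * j) ?_ ?_ ?_
  · rw [vertsH, ptZ_eq (2 * m + 2) (2 * j) _ _ (by push_cast; ring) (by push_cast; ring)]; simp
  · rw [vertsH, ptZ_eq (2 * (m + 2) - 2) (2 * j) _ _ (by push_cast; ring) (by push_cast; ring)]
    simp
  · intro x s h1 h2
    rw [memH] at h1 h2
    push_cast at h2
    obtain ⟨a1, a2, a3, a4, a5, a6⟩ := h1
    obtain ⟨b1, b2, b3, b4, b5, b6⟩ := h2
    constructor <;> linarith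

theorem slDU (m j : ℤ) : EdgeToEdge (D m j) (U m j) := by
  refine e2e_vertex m (2 * j) ?_ ?_ ?_
  · rw [vertsD, ptZ_eq (2 * m) (2 * j) _ _ (by push_cast; ring) (by push_cast; ring)]; simp
  · rw [vertsU, ptZ_eq (2 * m) (2 * j) _ _ (by push_cast; ring) (by push_cast; ring)]; simp
  · intro x s h1 h2
    rw [memD] at h1
    rw [memU] at h2
    obtain ⟨a1, a2, a3, a4⟩ := h1
    obtain ⟨b1, b2, b3, b4⟩ := h2
    constructor <;> linarith

theorem tri_bd {P : Set ℂ} {m j : ℤ} (h : P = D m j ∨ P = U m j) (x s : ℝ) (hx : pt x s ∈ P) :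
    x ≤ m + 1 / 2 ∧ (m : ℝ) - 1 / 2 ≤ x := by
  rcases h with rfl | rfl
  · rw [memD] at hx
    obtain ⟨h1, h2, h3, h4⟩ := hx
    constructor <;> linarith
  · rw [memU] at hx
    obtain ⟨h1, h2, h3, h4⟩ := hx
    constructor <;> linarith

theorem e2e_same {P Q : Set ℂ} {m m' j : ℤ} (hP : IsT P m j) (hQ : IsT Q m' j) (hm : m < m') :
    EdgeToEdge P Q := by
  obtain ⟨k, hk, rfl⟩ : ∃ k : ℤ, 0 < k ∧ m' = m + k := ⟨m' - m, by omega, by ring⟩
  by_cases h1 : k = 1
  · subst h1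
    rcases hP with ⟨hm', rfl⟩ | ⟨hm', rfl⟩ | ⟨hm', rfl⟩
    · rcases hQ with ⟨hn, rfl⟩ | ⟨hn, rfl⟩ | ⟨hn, rfl⟩
      · exfalso
        rw [Int.even_iff] at hm' hn
        omega
      · exact slHD m j
      · exact slHU m j
    · rcases hQ with ⟨hn, rfl⟩ | ⟨hn, rfl⟩ | ⟨hn, rfl⟩
      · exact slDH m j
      · exfalso
        rw [Int.odd_iff] at hm' hn
        omega
      · exfalso
        rw [Int.odd_iff] at hm' hn
        omega
    · rcases hQ with ⟨hn, rfl⟩ | ⟨hn, rfl⟩ | ⟨hn, rfl⟩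
      · exact slUH m j
      · exfalso
        rw [Int.odd_iff] at hm' hn
        omega
      · exfalso
        rw [Int.odd_iff] at hm' hn
        omega
  by_cases h2 : k = 2
  · subst h2
    rcases hP with ⟨hm', rfl⟩ | hP
    · rcases hQ with ⟨hn, rfl⟩ | ⟨hn, rfl⟩ | ⟨hn, rfl⟩
      · exact slHH m j
      · exfalso
        rw [Int.even_iff] at hm'
        rw [Int.odd_iff] at hn
        omega
      · exfalso
        rw [Int.even_iff] at hm'
        rw [Int.odd_iff] at hn
        omega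
    · have hodd : Odd m := by rcases hP with h | h <;> exact h.1
      have hP' : P = D m j ∨ P = U m j := by
        rcases hP with h | h
        · left; exact h.2
        · right; exact h.2
      have hQ' : Q = D (m + 2) j ∨ Q = U (m + 2) j := by
        rcases hQ with h | h | h
        · exfalso
          have h1 := h.1
          rw [Int.even_iff] at h1
          rw [Int.odd_iff] at hodd
          omega
        · left; exact h.2
        · right; exact h.2
      refine e2e_empty fun x s k1 k2 => ?_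
      have a := (tri_bd hP' x s k1).1
      have b := (tri_bd hQ' x s k2).2
      push_cast at b
      linarith
  · refine e2e_empty fun x s k1 k2 => ?_
    have a := (hP.bd x s k1).2.2.1
    have b := (hQ.bd x s k2).2.2.2
    have : (3 : ℝ) ≤ k := by
      have : (3 : ℤ) ≤ k := by omega
      exact_mod_cast this
    push_cast at b
    linarith

theorem e2e_TT (P : Set ℂ) (hP : P ∈ TT) (Q : Set ℂ) (hQ : Q ∈ TT) (hne : P ≠ Q) :
    EdgeToEdge P Q := by
  obtain ⟨m, j, hP⟩ := hP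
  obtain ⟨m', j', hQ⟩ := hQ
  rcases lt_trichotomy j j' with h | h | h
  · exact e2e_rows hP hQ h
  · subst h
    rcases lt_trichotomy m m' with h | h | h
    · exact e2e_same hP hQ h
    · subst h
      rcases hP with ⟨hm, rfl⟩ | ⟨hm, rfl⟩ | ⟨hm, rfl⟩
      · rcases hQ with ⟨hn, rfl⟩ | ⟨hn, rfl⟩ | ⟨hn, rfl⟩
        · exact absurd rfl hne
        · exfalso
          rw [Int.even_iff] at hm
          rw [Int.odd_iff] at hn
          omega
        · exfalso
          rw [Int.even_iff] at hm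
          rw [Int.odd_iff] at hn
          omega
      · rcases hQ with ⟨hn, rfl⟩ | ⟨hn, rfl⟩ | ⟨hn, rfl⟩
        · exfalso
          rw [Int.even_iff] at hn
          rw [Int.odd_iff] at hm
          omega
        · exact absurd rfl hne
        · exact slDU m j
      · rcases hQ with ⟨hn, rfl⟩ | ⟨hn, rfl⟩ | ⟨hn, rfl⟩
        · exfalso
          rw [Int.even_iff] at hn
          rw [Int.odd_iff] at hm
          omega
        · exact (slDU m j).symm
        · exact absurd rfl hne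
    · exact (e2e_same hQ hP h).symm
  · exact (e2e_rows hQ hP h).symm

theorem triD (m j : ℤ) : IsTriangle (D m j) := isTriangle_tri _ _ norm_om
theorem triU (m j : ℤ) : IsTriangle (U m j) := isTriangle_tri _ _ (by rw [norm_neg, norm_om])
theorem hexH (m j : ℤ) : IsHexagon (H m j) := isHexagon_hex _ _ n1

theorem not_both (P : Set ℂ) (h1 : IsTriangle P) (h2 : IsHexagon P) : False := by
  obtain ⟨a, u, hu, rfl⟩ := h1
  obtain ⟨c, v, hv, he⟩ := h2
  have e : Verts (tri a u) = Verts (hex c v) := by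
    unfold tri hex hexV
    rw [he]
  rw [tri_verts a u hu, hex_verts c v hv] at e
  have m1 : c + v ∈ ({a, a + u, a + om * u} : Set ℂ) := by rw [e]; exact ⟨0, by simp⟩
  have m2 : c - v ∈ ({a, a + u, a + om * u} : Set ℂ) := by
    rw [e]; exact ⟨3, by rw [om3]; ring⟩
  have hd : ‖(c + v) - (c - v)‖ = 2 := by
    rw [show (c + v) - (c - v) = 2 * v by ring, norm_mul, hv]; simp
  have hom : ‖om * u‖ = 1 := by rw [norm_mul, norm_om, hu]; simp
  have hom2 : ‖om ^ 2 * u‖ = 1 := norm_om_mul u hu 2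
  simp only [Set.mem_insert_iff, Set.mem_singleton_iff] at m1 m2
  rcases m1 with h | h | h <;> rcases m2 with h' | h' | h' <;> rw [h, h'] at hd
  · simp at hd
  · rw [show a - (a + u) = -u by ring, norm_neg, hu] at hd; norm_num at hd
  · rw [show a - (a + om * u) = -(om * u) by ring, norm_neg, hom] at hd; norm_num at hd
  · rw [show a + u - a = u by ring, hu] at hd; norm_num at hd
  · simp at hd
  · rw [show a + u - (a + om * u) = -(om ^ 2 * u) by rw [om2]; ring, norm_neg, hom2] at hd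
    norm_num at hd
  · rw [show a + om * u - a = om * u by ring, hom] at hd; norm_num at hd
  · rw [show a + om * u - (a + u) = om ^ 2 * u by rw [om2]; ring, hom2] at hd
    norm_num at hd
  · simp at hd

theorem cover_TT : ⋃₀ TT = Set.univ := by
  rw [Set.eq_univ_iff_forall]
  intro z
  obtain ⟨x, s, rfl⟩ := pt_surj z
  obtain ⟨j, hj1, hj2⟩ : ∃ j : ℤ, -1 ≤ s - 2 * j ∧ s - 2 * j ≤ 1 := by
    refine ⟨round (s / 2), ?_⟩
    have := abs_le.mp (abs_sub_round (s / 2))
    constructor <;> linarith [this.1, this.2]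
  obtain ⟨k, hk1, hk2⟩ : ∃ k : ℤ, -1 ≤ x - 2 * k ∧ x - 2 * k ≤ 1 := by
    refine ⟨round (x / 2), ?_⟩
    have := abs_le.mp (abs_sub_round (x / 2))
    constructor <;> linarith [this.1, this.2]
  by_cases hH : pt x s ∈ H (2 * k) j
  · exact ⟨_, ⟨2 * k, j, Or.inl ⟨⟨k, by ring⟩, rfl⟩⟩, hH⟩
  · have ho1 : Odd (2 * k + 1) := ⟨k, rfl⟩
    have ho2 : Odd (2 * k - 1) := ⟨k - 1, by ring⟩
    by_cases h1 : pt x s ∈ D (2 * k + 1) j
    · exact ⟨_, ⟨2 * k + 1, j, Or.inr (Or.inl ⟨ho1, rfl⟩)⟩, h1⟩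
    by_cases h2 : pt x s ∈ U (2 * k + 1) j
    · exact ⟨_, ⟨2 * k + 1, j, Or.inr (Or.inr ⟨ho1, rfl⟩)⟩, h2⟩
    by_cases h3 : pt x s ∈ D (2 * k - 1) j
    · exact ⟨_, ⟨2 * k - 1, j, Or.inr (Or.inl ⟨ho2, rfl⟩)⟩, h3⟩
    by_cases h4 : pt x s ∈ U (2 * k - 1) j
    · exact ⟨_, ⟨2 * k - 1, j, Or.inr (Or.inr ⟨ho2, rfl⟩)⟩, h4⟩
    exfalso
    rw [memH] at hH
    rw [memD] at h1 h3
    rw [memU] at h2 h4
    push_cast at hH h1 h2 h3 h4
    rcases le_total 0 (s - 2 * j) with hs | hs <;> rcases le_total 0 (x - 2 * k) with hx | hx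
    · have : ¬ (x - 2 * k + (s - 2 * j) / 2 ≤ 1) := fun h => hH
        ⟨hj1, hj2, h, by linarith, by linarith, by linarith⟩
      push Not at this
      exact h1 ⟨hs, hj2, by linarith, by linarith⟩
    · have : ¬ (2 * k - x + (s - 2 * j) / 2 ≤ 1) := fun h => hH
        ⟨hj1, hj2, by linarith, by linarith, h, by linarith⟩
      push Not at this
      exact h3 ⟨hs, hj2, by linarith, by linarith⟩
    · have : ¬ (x - 2 * k - (s - 2 * j) / 2 ≤ 1) := fun h => hH
        ⟨hj1, hj2, by linarith, h, by linarith, by linarith⟩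
      push Not at this
      exact h2 ⟨by linarith, by linarith, by linarith, by linarith⟩
    · have : ¬ (2 * k - x - (s - 2 * j) / 2 ≤ 1) := fun h => hH
        ⟨hj1, hj2, by linarith, by linarith, by linarith, h⟩
      push Not at this
      exact h4 ⟨by linarith, by linarith, by linarith, by linarith⟩

end Pool.Agent.Lib.MP_12bd27_co
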